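import Pool.Agent.W140.GG.Lower

namespace Pool.Agent.W140.GG

open Finset

/-- points on a parabola -/
noncomputable def par (n : ℕ) : Fin n → ℝ × ℝ := fun i => (((i : ℕ) : ℝ), ((i : ℕ) : ℝ) ^ 2)

lemma det_of_collinear {p q r : ℝ × ℝ} (h : Collinear ℝ ({p, q, r} : Set (ℝ × ℝ))) :
    (q.1 - p.1) * (r.2 - p.2) - (r.1 - p.1) * (q.2 - p.2) = 0 := by
  rw [collinear_iff_of_mem (p₀ := p) (by simp)] at h
  obtain ⟨v, hv⟩ := h
  obtain ⟨a, ha⟩ := hv q (by simp)
  obtain ⟨b, hb⟩ := hv r (by simp)
  rw [ha, hb]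
  simp only [vadd_eq_add, Prod.fst_add, Prod.snd_add, Prod.smul_fst, Prod.smul_snd, smul_eq_mul]
  ring

lemma genPos_par (n : ℕ) : GenPos (par n) := by
  constructor
  · intro i j h
    have := congrArg Prod.fst h
    simp only [par] at this
    exact Fin.ext (by exact_mod_cast this)
  · intro i j k hij hjk hik hc
    have h := det_of_collinear hc
    simp only [par] at h
    have h1 : (((j : ℕ) : ℝ) - ((i : ℕ) : ℝ)) ≠ 0 := by
      intro h'
      apply hij
      have : ((i : ℕ) : ℝ) = ((j : ℕ) : ℝ) := by linarith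
      exact Fin.ext (by exact_mod_cast this)
    have h2 : (((k : ℕ) : ℝ) - ((i : ℕ) : ℝ)) ≠ 0 := by
      intro h'
      apply hik
      have : ((i : ℕ) : ℝ) = ((k : ℕ) : ℝ) := by linarith
      exact Fin.ext (by exact_mod_cast this)
    have h3 : (((k : ℕ) : ℝ) - ((j : ℕ) : ℝ)) ≠ 0 := by
      intro h'
      apply hjk
      have : ((j : ℕ) : ℝ) = ((k : ℕ) : ℝ) := by linarith
      exact Fin.ext (by exact_mod_cast this)
    have : (((j : ℕ) : ℝ) - ((i : ℕ) : ℝ)) * (((k : ℕ) : ℝ) - ((i : ℕ) : ℝ)) *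
        (((k : ℕ) : ℝ) - ((j : ℕ) : ℝ)) = 0 := by
      linear_combination h
    rcases mul_eq_zero.1 this with h' | h'
    · rcases mul_eq_zero.1 h' with h'' | h''
      · exact h1 h''
      · exact h2 h''
    · exact h3 h'

/-- The sign function of the line at the `i`-th point. -/
def ph (a b c : ℝ) (i : ℕ) : ℝ := a * (i : ℝ) + b * (i : ℝ) ^ 2 - c

lemma ph_conv {a b c : ℝ} (h : 0 < b ∨ (b = 0 ∧ a ≠ 0)) {i j k : ℕ} (hij : i < j)
    (hjk : j < k) (hi : ph a b c i ≤ 0) (hk : ph a b c k ≤ 0) : ph a b c j < 0 := by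
  have hij' : (i : ℝ) < j := by exact_mod_cast hij
  have hjk' : (j : ℝ) < k := by exact_mod_cast hjk
  have e : ((k : ℝ) - i) * ph a b c j = ((k : ℝ) - j) * ph a b c i + ((j : ℝ) - i) * ph a b c k
      - b * (((j : ℝ) - i) * ((k : ℝ) - j) * ((k : ℝ) - i)) := by
    unfold ph; ring
  have p1 : 0 < (k : ℝ) - i := by linarith
  have p2 : 0 < (k : ℝ) - j := by linarith
  have p3 : 0 < (j : ℝ) - i := by linarith
  have q1 : ((k : ℝ) - j) * ph a b c i ≤ 0 := mul_nonpos_of_nonneg_of_nonpos p2.le hi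
  have q2 : ((j : ℝ) - i) * ph a b c k ≤ 0 := mul_nonpos_of_nonneg_of_nonpos p3.le hk
  rcases h with hb | ⟨hb, ha⟩
  · have q3 : 0 < b * (((j : ℝ) - i) * ((k : ℝ) - j) * ((k : ℝ) - i)) := by positivity
    have : ((k : ℝ) - i) * ph a b c j < 0 := by rw [e]; linarith
    by_contra hcon
    push Not at hcon
    have := mul_nonneg p1.le hcon
    linarith
  · by_contra hcon
    push Not at hcon
    have h0 := mul_nonneg p1.le hcon
    rw [e, show b * (((j : ℝ) - i) * ((k : ℝ) - j) * ((k : ℝ) - i)) = 0 by rw [hb]; ring] at h0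
    have r1 : ((k : ℝ) - j) * ph a b c i = 0 := by linarith
    have r2 : ((j : ℝ) - i) * ph a b c k = 0 := by linarith
    have s1 : ph a b c i = 0 := by
      rcases mul_eq_zero.1 r1 with h | h
      · linarith
      · exact h
    have s2 : ph a b c k = 0 := by
      rcases mul_eq_zero.1 r2 with h | h
      · linarith
      · exact h
    unfold ph at s1 s2
    rw [hb] at s1 s2
    have : a * ((k : ℝ) - i) = 0 := by linarith
    rcases mul_eq_zero.1 this with h | h
    · exact ha h
    · linarith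

/-- The points below the line form an interval, up to the boundary points. -/
lemma exists_interval (n : ℕ) {a b c : ℝ} (h : 0 < b ∨ (b = 0 ∧ a ≠ 0)) :
    ∃ p r : ℕ, p ≤ r ∧ r ≤ n ∧ ∀ i j : ℕ, i < n → j < n → i ≠ j →
      ((ph a b c i < 0 ∧ 0 < ph a b c j) ∨ (ph a b c i = 0 ∧ ph a b c j = 0)) →
      ¬ ((p ≤ i ∧ i < r) ↔ (p ≤ j ∧ j < r)) := by
  classical
  set W := (range n).filter (fun i => ph a b c i ≤ 0) with hW
  rcases W.eq_empty_or_nonempty with hE | hE
  · refine ⟨0, 0, le_refl _, Nat.zero_le _, ?_⟩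
    intro i j hi hj _ hh
    exfalso
    have : i ∈ W := by
      rw [hW, mem_filter, mem_range]
      refine ⟨hi, ?_⟩
      rcases hh with hh | hh
      · exact hh.1.le
      · exact hh.1.le
    rw [hE] at this
    simp at this
  · set lo := W.min' hE with hlo
    set hi := W.max' hE with hhi
    have hloW : lo ∈ W := min'_mem _ _
    have hhiW : hi ∈ W := max'_mem _ _
    have hlo' := (mem_filter.1 hloW)
    have hhi' := (mem_filter.1 hhiW)
    rw [mem_range] at hlo' hhi'
    have hle : lo ≤ hi := min'_le _ _ hhiW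
    have memW : ∀ i, i < n → ph a b c i ≤ 0 → lo ≤ i ∧ i ≤ hi := by
      intro i hin hp
      have : i ∈ W := by rw [hW, mem_filter, mem_range]; exact ⟨hin, hp⟩
      exact ⟨min'_le _ _ this, le_max' _ _ this⟩
    have mid : ∀ i, lo < i → i < hi → ph a b c i < 0 := by
      intro i h1 h2
      exact ph_conv h h1 h2 hlo'.2 hhi'.2
    by_cases hz : ph a b c hi = 0
    · refine ⟨lo, hi, hle, by omega, ?_⟩
      intro i j hin hjn hne hh
      rcases hh with ⟨h1, h2⟩ | ⟨h1, h2⟩
      · have a1 := memW i hin h1.le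
        have a2 : i ≠ hi := by rintro rfl; linarith
        intro hiff
        have a3 := hiff.1 ⟨a1.1, by omega⟩
        rcases eq_or_lt_of_le a3.1 with h3 | h3
        · rw [← h3] at h2
          linarith [hlo'.2]
        · linarith [mid j h3 a3.2]
      · have a1 := memW i hin h1.le
        have a2 := memW j hjn h2.le
        have b1 : i = lo ∨ i = hi := by
          by_contra hcon
          push Not at hcon
          have := mid i (by omega) (by omega)
          linarith
        have b2 : j = lo ∨ j = hi := by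
          by_contra hcon
          push Not at hcon
          have := mid j (by omega) (by omega)
          linarith
        intro hiff
        rcases b1 with rfl | rfl <;> rcases b2 with rfl | rfl
        · exact hne rfl
        · have := hiff.1 ⟨le_refl _, by omega⟩
          omega
        · have := hiff.2 ⟨le_refl _, by omega⟩
          omega
        · exact hne rfl
    · have hz' : ph a b c hi < 0 := lt_of_le_of_ne hhi'.2 hz
      refine ⟨lo, hi + 1, by omega, by omega, ?_⟩
      intro i j hin hjn hne hh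
      rcases hh with ⟨h1, h2⟩ | ⟨h1, h2⟩
      · have a1 := memW i hin h1.le
        intro hiff
        have a3 := hiff.1 ⟨a1.1, by omega⟩
        rcases eq_or_lt_of_le a3.1 with h3 | h3
        · rw [← h3] at h2
          linarith [hlo'.2]
        · rcases eq_or_lt_of_le (Nat.le_of_lt_succ a3.2) with h4 | h4
          · rw [h4] at h2; linarith
          · linarith [mid j h3 h4]
      · exfalso
        have a1 := memW i hin h1.le
        have a2 := memW j hjn h2.le
        have b1 : i = lo ∨ i = hi := by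
          by_contra hcon
          push Not at hcon
          have := mid i (by omega) (by omega)
          linarith
        have b2 : j = lo ∨ j = hi := by
          by_contra hcon
          push Not at hcon
          have := mid j (by omega) (by omega)
          linarith
        rcases b1 with rfl | rfl
        · rcases b2 with rfl | rfl
          · exact hne rfl
          · linarith
        · linarith

/-- the edge of an arc -/
def arcEdge (n : ℕ) (hn : 0 < n) (p : ℕ × ℕ) : Sym2 (Fin n) :=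
  s(⟨p.1 % n, Nat.mod_lt _ hn⟩, ⟨(p.1 + p.2) % n, Nat.mod_lt _ hn⟩)

/-- the circulant graph -/
def circ (n t q : ℕ) (hn : 0 < n) : SimpleGraph (Fin n) :=
  SimpleGraph.fromEdgeSet (((arcs n t q).image (arcEdge n hn) : Finset (Sym2 (Fin n))) :
    Set (Sym2 (Fin n)))

lemma circ_edgeSet (n t q : ℕ) (hn : 0 < n) (ht : t + 1 < n) :
    (circ n t q hn).edgeSet = (((arcs n t q).image (arcEdge n hn) : Finset (Sym2 (Fin n))) :
    Set (Sym2 (Fin n))) := by
  unfold circ
  rw [SimpleGraph.edgeSet_fromEdgeSet]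
  rw [sdiff_eq_left]
  rw [Set.disjoint_left]
  intro e he hd
  rw [mem_coe, mem_image] at he
  obtain ⟨p, hp, rfl⟩ := he
  have h := mem_arcs.1 hp
  have hd' : (arcEdge n hn p).IsDiag := hd
  unfold arcEdge at hd'
  rw [Sym2.mk_isDiag_iff, Fin.mk.injEq, Nat.mod_eq_of_lt h.1] at hd'
  rcases Nat.lt_or_ge (p.1 + p.2) n with hlt | hge
  · rw [Nat.mod_eq_of_lt hlt] at hd'
    omega
  · rw [Nat.mod_eq_sub_mod hge, Nat.mod_eq_of_lt (by omega)] at hd'
    omega

lemma circ_ncard (n t q : ℕ) (hn : 0 < n) (ht : 2 * t + 3 ≤ n) :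
    (circ n t q hn).edgeSet.ncard = (arcs n t q).card := by
  classical
  rw [circ_edgeSet n t q hn (by omega), Set.ncard_coe_finset]
  apply card_image_of_injOn
  intro p hp p' hp' he
  rw [mem_coe] at hp hp'
  have h := mem_arcs.1 hp
  have h' := mem_arcs.1 hp'
  unfold arcEdge at he
  simp only [Sym2.eq_iff, Fin.mk.injEq] at he
  rw [Nat.mod_eq_of_lt h.1, Nat.mod_eq_of_lt h'.1] at he
  have e1 : (p.1 + p.2) % n = if p.1 + p.2 < n then p.1 + p.2 else p.1 + p.2 - n := by
    split_ifs with hlt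
    · exact Nat.mod_eq_of_lt hlt
    · rw [Nat.mod_eq_sub_mod (by omega), Nat.mod_eq_of_lt (by omega)]
  have e2 : (p'.1 + p'.2) % n = if p'.1 + p'.2 < n then p'.1 + p'.2 else p'.1 + p'.2 - n := by
    split_ifs with hlt
    · exact Nat.mod_eq_of_lt hlt
    · rw [Nat.mod_eq_sub_mod (by omega), Nat.mod_eq_of_lt (by omega)]
  rw [e1, e2] at he
  apply Prod.ext
  · split_ifs at he <;> omega
  · split_ifs at he <;> omega

lemma meets_le (n t q : ℕ) (hn : 0 < n) (ht : t + 1 < n)
    (hQ : q = t + 1 ∨ (t + 1) ∣ n) {a b c : ℝ} (h : 0 < b ∨ (b = 0 ∧ a ≠ 0)) :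
    {x ∈ (circ n t q hn).edgeSet | Meets (par n) a b c x}.ncard ≤ t * (t + 1) + 2 * q := by
  classical
  obtain ⟨p, r, hpr, hr, hI⟩ := exists_interval n (a := a) (b := b) (c := c) h
  refine le_trans ?_ (card_sep n t q p r ht hpr hr hQ)
  rw [← Set.ncard_coe_finset]
  refine le_trans (Set.ncard_le_ncard (t := (arcEdge n hn) '' (((arcs n t q).filter
    (fun z => ¬ ((p ≤ z.1 ∧ z.1 < r) ↔
      (p ≤ (z.1 + z.2) % n ∧ (z.1 + z.2) % n < r))) : Finset (ℕ × ℕ)) : Set (ℕ × ℕ))) ?_
      (Set.toFinite _)) (Set.ncard_image_le (Set.toFinite _))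
  rintro x ⟨hx, i, j, rfl, z, hz, hzc⟩
  rw [circ_edgeSet n t q hn ht, mem_coe, mem_image] at hx
  obtain ⟨w, hw, hwe⟩ := hx
  refine ⟨w, ?_, hwe⟩
  rw [mem_coe, mem_filter]
  refine ⟨hw, ?_⟩
  have hwa := mem_arcs.1 hw
  -- sign information
  obtain ⟨l, m, hl, hm, hlm, hz'⟩ := hz
  have hsum : l * ph a b c i + m * ph a b c j = 0 := by
    have h1 : z.1 = l * (i : ℕ) + m * (j : ℕ) := by rw [← hz']; simp [par]
    have h2 : z.2 = l * ((i : ℕ) : ℝ) ^ 2 + m * ((j : ℕ) : ℝ) ^ 2 := by rw [← hz']; simp [par]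
    rw [h1, h2] at hzc
    unfold ph
    have : l * (a * (i : ℕ) + b * ((i : ℕ) : ℝ) ^ 2 - c) +
        m * (a * (j : ℕ) + b * ((j : ℕ) : ℝ) ^ 2 - c) =
        (a * (l * (i : ℕ) + m * (j : ℕ)) + b * (l * ((i : ℕ) : ℝ) ^ 2 + m * ((j : ℕ) : ℝ) ^ 2))
          - (l + m) * c := by ring
    rw [this, hzc, hlm]
    ring
  have hne : (i : ℕ) ≠ (j : ℕ) := by
    intro hij
    have hij' : i = j := Fin.ext hij
    unfold arcEdge at hwe
    simp only [Sym2.eq_iff] at hwe
    have h3 : w.1 % n = (w.1 + w.2) % n := by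
      rcases hwe with h | h
      · have e1 := congrArg Fin.val h.1
        have e2 := congrArg Fin.val h.2
        simp only at e1 e2
        rw [e1, e2, hij]
      · have e1 := congrArg Fin.val h.1
        have e2 := congrArg Fin.val h.2
        simp only at e1 e2
        rw [e1, e2, hij]
    rw [Nat.mod_eq_of_lt hwa.1] at h3
    rcases Nat.lt_or_ge (w.1 + w.2) n with hlt | hge
    · rw [Nat.mod_eq_of_lt hlt] at h3
      omega
    · rw [Nat.mod_eq_sub_mod hge, Nat.mod_eq_of_lt (by omega)] at h3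
      omega
  have hcase : ((ph a b c i < 0 ∧ 0 < ph a b c j) ∨ (ph a b c i = 0 ∧ ph a b c j = 0)) ∨
      (ph a b c j < 0 ∧ 0 < ph a b c i) := by
    rcases lt_trichotomy (ph a b c i) 0 with h1 | h1 | h1
    · left; left
      refine ⟨h1, ?_⟩
      by_contra hcon
      push Not at hcon
      have := mul_neg_of_pos_of_neg hl h1
      have := mul_nonpos_of_nonneg_of_nonpos hm.le hcon
      linarith
    · left; right
      refine ⟨h1, ?_⟩
      rw [h1, mul_zero, zero_add] at hsum
      rcases mul_eq_zero.1 hsum with h2 | h2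
      · linarith
      · exact h2
    · right
      refine ⟨?_, h1⟩
      by_contra hcon
      push Not at hcon
      have := mul_pos hl h1
      have := mul_nonneg hm.le hcon
      linarith
  have hsep : ¬ ((p ≤ (i : ℕ) ∧ (i : ℕ) < r) ↔ (p ≤ (j : ℕ) ∧ (j : ℕ) < r)) := by
    rcases hcase with hc | hc
    · exact hI i j i.2 j.2 hne hc
    · intro hiff
      exact hI j i j.2 i.2 hne.symm (Or.inl hc) hiff.symm
  unfold arcEdge at hwe
  simp only [Sym2.eq_iff] at hwe
  rcases hwe with h | h
  · have e1 := congrArg Fin.val h.1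
    have e2 := congrArg Fin.val h.2
    simp only at e1 e2
    rw [Nat.mod_eq_of_lt hwa.1] at e1
    rw [e2, e1]
    exact hsep
  · have e1 := congrArg Fin.val h.1
    have e2 := congrArg Fin.val h.2
    simp only at e1 e2
    rw [Nat.mod_eq_of_lt hwa.1] at e1
    rw [e2, e1]
    exact fun hiff => hsep hiff.symm

/-- no line meets more than `t (t+1) + 2 q` edges of the circulant graph -/
theorem circ_lines (n t q : ℕ) (hn : 0 < n) (ht : t + 1 < n)
    (hQ : q = t + 1 ∨ (t + 1) ∣ n) (a b c : ℝ) (h : a ≠ 0 ∨ b ≠ 0) :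
    {x ∈ (circ n t q hn).edgeSet | Meets (par n) a b c x}.ncard ≤ t * (t + 1) + 2 * q := by
  rcases lt_trichotomy b 0 with hb | hb | hb
  · have := meets_le n t q hn ht hQ (a := -a) (b := -b) (c := -c) (Or.inl (by linarith))
    have e : {x ∈ (circ n t q hn).edgeSet | Meets (par n) a b c x} =
        {x ∈ (circ n t q hn).edgeSet | Meets (par n) (-a) (-b) (-c) x} := by
      ext x
      simp only [Set.mem_setOf_eq]
      constructor
      · rintro ⟨h1, i, j, h2, z, h3, h4⟩
        exact ⟨h1, i, j, h2, z, h3, by linarith⟩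
      · rintro ⟨h1, i, j, h2, z, h3, h4⟩
        exact ⟨h1, i, j, h2, z, h3, by linarith⟩
    rw [e]
    exact this
  · apply meets_le n t q hn ht hQ
    right
    refine ⟨hb, ?_⟩
    rcases h with h | h
    · exact h
    · exact absurd hb h
  · exact meets_le n t q hn ht hQ (Or.inl hb)

end Pool.Agent.W140.GG
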