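import Pool.Agent.W140.GG.Parab

namespace Pool.Agent.W140.GG

open Finset

/-- the graph of a set of arcs -/
def gr (n : ℕ) (hn : 0 < n) (𝒜 : Finset (ℕ × ℕ)) : SimpleGraph (Fin n) :=
  SimpleGraph.fromEdgeSet ((𝒜.image (arcEdge n hn) : Finset (Sym2 (Fin n))) :
    Set (Sym2 (Fin n)))

lemma gr_edgeSet (n t : ℕ) (hn : 0 < n) (ht : t + 1 < n) (𝒜 : Finset (ℕ × ℕ))
    (h𝒜 : ∀ p ∈ 𝒜, p.1 < n ∧ 1 ≤ p.2 ∧ p.2 ≤ t + 1) :
    (gr n hn 𝒜).edgeSet = ((𝒜.image (arcEdge n hn) : Finset (Sym2 (Fin n))) :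
    Set (Sym2 (Fin n))) := by
  unfold gr
  rw [SimpleGraph.edgeSet_fromEdgeSet]
  rw [sdiff_eq_left]
  rw [Set.disjoint_left]
  intro e he hd
  rw [mem_coe, mem_image] at he
  obtain ⟨p, hp, rfl⟩ := he
  have h := h𝒜 p hp
  have hd' : (arcEdge n hn p).IsDiag := hd
  unfold arcEdge at hd'
  rw [Sym2.mk_isDiag_iff, Fin.mk.injEq, Nat.mod_eq_of_lt h.1] at hd'
  rcases Nat.lt_or_ge (p.1 + p.2) n with hlt | hge
  · rw [Nat.mod_eq_of_lt hlt] at hd'
    omega
  · rw [Nat.mod_eq_sub_mod hge, Nat.mod_eq_of_lt (by omega)] at hd'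
    omega

lemma gr_ncard (n t : ℕ) (hn : 0 < n) (ht : 2 * t + 3 ≤ n) (𝒜 : Finset (ℕ × ℕ))
    (h𝒜 : ∀ p ∈ 𝒜, p.1 < n ∧ 1 ≤ p.2 ∧ p.2 ≤ t + 1) :
    (gr n hn 𝒜).edgeSet.ncard = 𝒜.card := by
  classical
  rw [gr_edgeSet n t hn (by omega) 𝒜 h𝒜, Set.ncard_coe_finset]
  apply card_image_of_injOn
  intro p hp p' hp' he
  rw [mem_coe] at hp hp'
  have h := h𝒜 p hp
  have h' := h𝒜 p' hp'
  unfold arcEdge at he
  simp only [Sym2.eq_iff, Fin.mk.injEq] at he
  rw [Nat.mod_eq_of_lt h.1, Nat.mod_eq_of_lt h'.1] at he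
  have e1 : (p.1 + p.2) % n = if p.1 + p.2 < n then p.1 + p.2 else p.1 + p.2 - n := by
    split_ifs with hlt
    · exact Nat.mod_eq_of_lt hlt
    · rw [Nat.mod_eq_sub_mod (by omega), Nat.mod_eq_of_lt (by omega)]
  have e2 : (p'.1 + p'.2) % n = if p'.1 + p'.2 < n then p'.1 + p'.2 else p'.1 + p'.2 - n := by
    split_ifs with hlt
    · exact Nat.mod_eq_of_lt hlt
    · rw [Nat.mod_eq_sub_mod (by omega), Nat.mod_eq_of_lt (by omega)]
  rw [e1, e2] at he
  apply Prod.ext
  · split_ifs at he <;> omega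
  · split_ifs at he <;> omega

lemma sep_le (n t K p r : ℕ) (ht : t + 1 < n) (hpr : p ≤ r) (hr : r ≤ n)
    (𝒜 : Finset (ℕ × ℕ)) (h𝒜 : ∀ p ∈ 𝒜, p.1 < n ∧ 1 ≤ p.2 ∧ p.2 ≤ t + 1)
    (hK : ∀ g ≤ n, 2 * (𝒜.filter (covers n g)).card ≤ K) :
    (𝒜.filter (fun z => ¬ ((p ≤ z.1 ∧ z.1 < r) ↔
      (p ≤ (z.1 + z.2) % n ∧ (z.1 + z.2) % n < r)))).card ≤ K := by
  classical
  have hsub : 𝒜.filter (fun z => ¬ ((p ≤ z.1 ∧ z.1 < r) ↔
      (p ≤ (z.1 + z.2) % n ∧ (z.1 + z.2) % n < r))) ⊆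
      𝒜.filter (covers n p) ∪ 𝒜.filter (covers n r) := by
    intro z hz
    rw [mem_filter] at hz
    have h := h𝒜 z hz.1
    rw [mem_union, mem_filter, mem_filter]
    by_contra hcon
    apply hz.2
    have c1 : ¬ covers n p z := fun h => hcon (Or.inl ⟨hz.1, h⟩)
    have c2 : ¬ covers n r z := fun h => hcon (Or.inr ⟨hz.1, h⟩)
    unfold covers at c1 c2
    rcases Nat.lt_or_ge (z.1 + z.2) n with hlt | hge
    · rw [Nat.mod_eq_of_lt hlt]
      constructor <;> intro h' <;> omega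
    · have : (z.1 + z.2) % n = z.1 + z.2 - n := by
        rw [Nat.mod_eq_sub_mod hge, Nat.mod_eq_of_lt (by omega)]
      rw [this]
      constructor <;> intro h' <;> omega
  have h1 := hK p (by omega)
  have h2 := hK r hr
  have h3 := card_le_card hsub
  have h4 := card_union_le (𝒜.filter (covers n p)) (𝒜.filter (covers n r))
  omega

lemma gr_meets_le (n t K : ℕ) (hn : 0 < n) (ht : t + 1 < n)
    (𝒜 : Finset (ℕ × ℕ)) (h𝒜 : ∀ p ∈ 𝒜, p.1 < n ∧ 1 ≤ p.2 ∧ p.2 ≤ t + 1)
    (hK : ∀ g ≤ n, 2 * (𝒜.filter (covers n g)).card ≤ K)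
    {a b c : ℝ} (h : 0 < b ∨ (b = 0 ∧ a ≠ 0)) :
    {x ∈ (gr n hn 𝒜).edgeSet | Meets (par n) a b c x}.ncard ≤ K := by
  classical
  obtain ⟨p, r, hpr, hr, hI⟩ := exists_interval n (a := a) (b := b) (c := c) h
  refine le_trans ?_ (sep_le n t K p r ht hpr hr 𝒜 h𝒜 hK)
  rw [← Set.ncard_coe_finset]
  refine le_trans (Set.ncard_le_ncard (t := (arcEdge n hn) '' ((𝒜.filter
    (fun z => ¬ ((p ≤ z.1 ∧ z.1 < r) ↔
      (p ≤ (z.1 + z.2) % n ∧ (z.1 + z.2) % n < r))) : Finset (ℕ × ℕ)) : Set (ℕ × ℕ))) ?_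
      (Set.toFinite _)) (Set.ncard_image_le (Set.toFinite _))
  rintro x ⟨hx, i, j, rfl, z, hz, hzc⟩
  rw [gr_edgeSet n t hn ht 𝒜 h𝒜, mem_coe, mem_image] at hx
  obtain ⟨w, hw, hwe⟩ := hx
  refine ⟨w, ?_, hwe⟩
  rw [mem_coe, mem_filter]
  refine ⟨hw, ?_⟩
  have hwa := h𝒜 w hw
  obtain ⟨l, m, hl, hm, hlm, hz'⟩ := hz
  have hsum : l * ph a b c i + m * ph a b c j = 0 := by
    have h1 : z.1 = l * (i : ℕ) + m * (j : ℕ) := by rw [← hz']; simp [par]
    have h2 : z.2 = l * ((i : ℕ) : ℝ) ^ 2 + m * ((j : ℕ) : ℝ) ^ 2 := by rw [← hz']; simp [par]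
    rw [h1, h2] at hzc
    unfold ph
    have : l * (a * (i : ℕ) + b * ((i : ℕ) : ℝ) ^ 2 - c) +
        m * (a * (j : ℕ) + b * ((j : ℕ) : ℝ) ^ 2 - c) =
        (a * (l * (i : ℕ) + m * (j : ℕ)) + b * (l * ((i : ℕ) : ℝ) ^ 2 + m * ((j : ℕ) : ℝ) ^ 2))
          - (l + m) * c := by ring
    rw [this, hzc, hlm]
    ring
  have hne : (i : ℕ) ≠ (j : ℕ) := by
    intro hij
    unfold arcEdge at hwe
    simp only [Sym2.eq_iff] at hwe
    have h3 : w.1 % n = (w.1 + w.2) % n := by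
      rcases hwe with h | h
      · have e1 := congrArg Fin.val h.1
        have e2 := congrArg Fin.val h.2
        simp only at e1 e2
        rw [e1, e2, hij]
      · have e1 := congrArg Fin.val h.1
        have e2 := congrArg Fin.val h.2
        simp only at e1 e2
        rw [e1, e2, hij]
    rw [Nat.mod_eq_of_lt hwa.1] at h3
    rcases Nat.lt_or_ge (w.1 + w.2) n with hlt | hge
    · rw [Nat.mod_eq_of_lt hlt] at h3
      omega
    · rw [Nat.mod_eq_sub_mod hge, Nat.mod_eq_of_lt (by omega)] at h3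
      omega
  have hcase : ((ph a b c i < 0 ∧ 0 < ph a b c j) ∨ (ph a b c i = 0 ∧ ph a b c j = 0)) ∨
      (ph a b c j < 0 ∧ 0 < ph a b c i) := by
    rcases lt_trichotomy (ph a b c i) 0 with h1 | h1 | h1
    · left; left
      refine ⟨h1, ?_⟩
      by_contra hcon
      push Not at hcon
      have := mul_neg_of_pos_of_neg hl h1
      have := mul_nonpos_of_nonneg_of_nonpos hm.le hcon
      linarith
    · left; right
      refine ⟨h1, ?_⟩
      rw [h1, mul_zero, zero_add] at hsum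
      rcases mul_eq_zero.1 hsum with h2 | h2
      · linarith
      · exact h2
    · right
      refine ⟨?_, h1⟩
      by_contra hcon
      push Not at hcon
      have := mul_pos hl h1
      have := mul_nonneg hm.le hcon
      linarith
  have hsep : ¬ ((p ≤ (i : ℕ) ∧ (i : ℕ) < r) ↔ (p ≤ (j : ℕ) ∧ (j : ℕ) < r)) := by
    rcases hcase with hc | hc
    · exact hI i j i.2 j.2 hne hc
    · intro hiff
      exact hI j i j.2 i.2 hne.symm (Or.inl hc) hiff.symm
  unfold arcEdge at hwe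
  simp only [Sym2.eq_iff] at hwe
  rcases hwe with h | h
  · have e1 := congrArg Fin.val h.1
    have e2 := congrArg Fin.val h.2
    simp only at e1 e2
    rw [Nat.mod_eq_of_lt hwa.1] at e1
    rw [e2, e1]
    exact hsep
  · have e1 := congrArg Fin.val h.1
    have e2 := congrArg Fin.val h.2
    simp only at e1 e2
    rw [Nat.mod_eq_of_lt hwa.1] at e1
    rw [e2, e1]
    exact fun hiff => hsep hiff.symm

theorem gr_lines (n t K : ℕ) (hn : 0 < n) (ht : t + 1 < n)
    (𝒜 : Finset (ℕ × ℕ)) (h𝒜 : ∀ p ∈ 𝒜, p.1 < n ∧ 1 ≤ p.2 ∧ p.2 ≤ t + 1)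
    (hK : ∀ g ≤ n, 2 * (𝒜.filter (covers n g)).card ≤ K) (a b c : ℝ) (h : a ≠ 0 ∨ b ≠ 0) :
    {x ∈ (gr n hn 𝒜).edgeSet | Meets (par n) a b c x}.ncard ≤ K := by
  rcases lt_trichotomy b 0 with hb | hb | hb
  · have := gr_meets_le n t K hn ht 𝒜 h𝒜 hK (a := -a) (b := -b) (c := -c)
      (Or.inl (by linarith))
    have e : {x ∈ (gr n hn 𝒜).edgeSet | Meets (par n) a b c x} =
        {x ∈ (gr n hn 𝒜).edgeSet | Meets (par n) (-a) (-b) (-c) x} := by
      ext x
      simp only [Set.mem_setOf_eq]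
      constructor
      · rintro ⟨h1, i, j, h2, z, h3, h4⟩
        exact ⟨h1, i, j, h2, z, h3, by linarith⟩
      · rintro ⟨h1, i, j, h2, z, h3, h4⟩
        exact ⟨h1, i, j, h2, z, h3, by linarith⟩
    rw [e]
    exact this
  · apply gr_meets_le n t K hn ht 𝒜 h𝒜 hK
    right
    refine ⟨hb, ?_⟩
    rcases h with h | h
    · exact h
    · exact absurd hb h
  · exact gr_meets_le n t K hn ht 𝒜 h𝒜 hK (Or.inl hb)

/-- the arcs that do not wrap around -/
def arcsL (n t q : ℕ) : Finset (ℕ × ℕ) := (arcs n t q).filter (fun p => p.1 + p.2 < n)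

lemma card_coversL (n t q g : ℕ) :
    2 * ((arcsL n t q).filter (covers n g)).card ≤ t * (t + 1) + 2 * q := by
  classical
  have hsplit : (arcsL n t q).filter (covers n g) ⊆
      ((arcsL n t q).filter (fun p => covers n g p ∧ p.2 ≤ t)) ∪
      ((arcsL n t q).filter (fun p => covers n g p ∧ p.2 = t + 1)) := by
    intro p hp
    rw [mem_filter] at hp
    rw [mem_union, mem_filter, mem_filter]
    have := mem_arcs.1 (mem_filter.1 hp.1).1
    rcases Nat.lt_or_ge p.2 (t + 1) with h | h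
    · left
      exact ⟨hp.1, hp.2, by omega⟩
    · right
      exact ⟨hp.1, hp.2, by omega⟩
  have h1 : ((arcsL n t q).filter (fun p => covers n g p ∧ p.2 ≤ t)).card ≤
      ((range (t + 1)).sigma (fun j => range j)).card := by
    apply card_le_card_of_injOn (fun p => (⟨p.2, (g - p.1) - 1⟩ : (_ : ℕ) × ℕ))
    · intro p hp
      simp only [coe_filter, Set.mem_setOf_eq] at hp
      have h0 := mem_filter.1 hp.1
      have h := mem_arcs.1 h0.1
      have hc := hp.2.1
      unfold covers at hc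
      simp only [coe_sigma, Set.mem_sigma_iff, coe_range, Set.mem_Iio]
      omega
    · intro p hp p' hp' he
      simp only [coe_filter, Set.mem_setOf_eq] at hp hp'
      have h0 := mem_filter.1 hp.1
      have h := mem_arcs.1 h0.1
      have h0' := mem_filter.1 hp'.1
      have h' := mem_arcs.1 h0'.1
      have hc := hp.2.1
      have hc' := hp'.2.1
      unfold covers at hc hc'
      simp only [Sigma.mk.injEq, heq_eq_eq] at he
      obtain ⟨he1, he2⟩ := he
      apply Prod.ext _ he1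
      omega
  have h2 : ((arcsL n t q).filter (fun p => covers n g p ∧ p.2 = t + 1)).card ≤
      (range q).card := by
    apply card_le_card_of_injOn (fun p => p.1 % (t + 1))
    · intro p hp
      simp only [coe_filter, Set.mem_setOf_eq] at hp
      have h0 := mem_filter.1 hp.1
      have h := mem_arcs.1 h0.1
      simp only [coe_range, Set.mem_Iio]
      exact h.2.2.2 hp.2.2
    · intro p hp p' hp' he
      simp only [coe_filter, Set.mem_setOf_eq] at hp hp'
      have h0 := mem_filter.1 hp.1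
      have h := mem_arcs.1 h0.1
      have h0' := mem_filter.1 hp'.1
      have h' := mem_arcs.1 h0'.1
      have hc := hp.2.1
      have hc' := hp'.2.1
      unfold covers at hc hc'
      simp only at he
      have e1 : p.2 = p'.2 := by omega
      apply Prod.ext _ e1
      have hmod : ((t + 1 : ℕ) : ℤ) ∣ ((p.1 : ℤ) - p'.1) := by
        have := (Nat.modEq_iff_dvd (n := t + 1) (a := p'.1) (b := p.1)).1 he.symm
        exact_mod_cast this
      have h00 : (p.1 : ℤ) - p'.1 = 0 := Int.eq_zero_of_abs_lt_dvd hmod (by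
        rw [abs_lt]; constructor <;> push_cast <;> omega)
      omega
  have h3 : 2 * ((range (t + 1)).sigma (fun j => range j)).card = t * (t + 1) := by
    rw [card_sigma]
    simp only [card_range]
    have := Finset.sum_range_id_mul_two (t + 1)
    rw [Nat.add_sub_cancel] at this
    linarith
  have h4 := card_le_card hsplit
  have h5 := card_union_le ((arcsL n t q).filter (fun p => covers n g p ∧ p.2 ≤ t))
      ((arcsL n t q).filter (fun p => covers n g p ∧ p.2 = t + 1))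
  rw [card_range] at h2
  omega

lemma card_arcsL (n t q : ℕ) (hq : q ≤ t + 1) (hn : t + 1 ≤ n) :
    n * t + n / (t + 1) * q ≤ (arcsL n t q).card + (t + 1) * (t + 1) := by
  classical
  have h1 := card_arcs n t q
  have h2 : n / (t + 1) * q ≤ ((range n).filter (fun i => i % (t + 1) < q)).card := by
    rw [← card_mod t q (n / (t + 1)) hq]
    apply card_le_card
    intro i hi
    rw [mem_filter, mem_range] at hi ⊢
    exact ⟨lt_of_lt_of_le hi.1 (Nat.div_mul_le_self _ _), hi.2⟩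
  have h3 : arcs n t q ⊆ arcsL n t q ∪ ((Ico (n - (t + 1)) n) ×ˢ (Icc 1 (t + 1))) := by
    intro p hp
    have h := mem_arcs.1 hp
    rw [mem_union]
    by_cases hlt : p.1 + p.2 < n
    · left
      exact mem_filter.2 ⟨hp, hlt⟩
    · right
      rw [mem_product, mem_Ico, mem_Icc]
      omega
  have h4 := card_le_card h3
  have h5 := card_union_le (arcsL n t q) ((Ico (n - (t + 1)) n) ×ˢ (Icc 1 (t + 1)))
  rw [card_product, Nat.card_Ico, Nat.card_Icc] at h5
  have h6 : n - (n - (t + 1)) = t + 1 := by omega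
  rw [h6, Nat.add_sub_cancel] at h5
  omega

end Pool.Agent.W140.GG
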