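import Pool.Agent.W140.GG.Count
import Pool.Agent.W140.GG.Lower2

namespace Pool.Agent.W140.GG

open Finset Filter

/-- Quantitative form of the upper bound for even `k`. -/
theorem quant {n : ℕ} (P : Fin n → ℝ × ℝ) (hP : GenPos P) (G : SimpleGraph (Fin n)) (c t s D : ℕ)
    (hs : 1 ≤ s) (hD : 1 ≤ D)
    (hk : ∀ a b c' : ℝ, (a ≠ 0 ∨ b ≠ 0) →
      {x ∈ G.edgeSet | Meets P a b c' x}.ncard < 2 * c + 1 + 1) :
    ∃ R d : ℕ, R * D ≤ (n / s + 1) * D + n * s ∧ d * d ≤ n * s + 2 * (n * (s * s * (2 * D))) ∧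
      (t + 1) * (2 * G.edgeSet.ncard) ≤ (2 * c + t * (t + 1)) * n + (t + 1) * (s * d) +
        (t + 1) * (2 * (R * (2 * c + 1))) := by
  classical
  obtain ⟨ε, hε⟩ := exists_dir P hP.1
  set x : Fin n → ℝ := fun i => (P i).1 + ε * (P i).2 with hx
  set y : Fin n → ℝ := fun i => (P i).2 with hy
  have hM : ∀ S, Sep2 x y S → E2 G S Sᶜ ≤ 2 * c + 1 :=
    fun S hS => cut_bound P G (2 * c + 1) hk ε S hS
  obtain ⟨𝓡₀, h1, h2, h3⟩ := slabs x y hε s hs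
  obtain ⟨𝓡, h4, h5, h6, h7⟩ := greedy (Sep2 x y) D hD (Ph 𝓡₀) 𝓡₀ (le_refl _) h1
  have hs' : ∀ v, (cl 𝓡 v).card ≤ s := fun v => (card_le_card (cl_anti h4 v)).trans (h3 v)
  rw [Fintype.card_fin] at h2
  refine ⟨𝓡.card, dc G 𝓡 (2 * c + t * (t + 1)) t, ?_, ?_, ?_⟩
  · have e1 : Ph 𝓡₀ ≤ n * s := by
      rw [Ph_eq]
      calc ∑ v, (cl 𝓡₀ v).card ≤ ∑ _v : Fin n, s := sum_le_sum (fun v _ => h3 v)
        _ = n * s := by simp
    have e2 : 𝓡₀.card * D ≤ (n / s + 1) * D := Nat.mul_le_mul_right _ h2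
    omega
  · have := dc_sq x y (hP.nc ε) G c t s D 𝓡 h5 hM hs' h7
    rw [Fintype.card_fin] at this
    exact this
  · have e1 := E2_univ_le G 𝓡 (2 * c + 1) (fun R hR => hM R (h5 R hR))
    have e2 := Ein_le G 𝓡 (2 * c + t * (t + 1)) t s hs'
    rw [E2_univ] at e1
    rw [Fintype.card_fin] at e2
    calc (t + 1) * (2 * G.edgeSet.ncard)
        ≤ (t + 1) * (Ein G 𝓡 + 2 * (𝓡.card * (2 * c + 1))) := Nat.mul_le_mul_left _ e1
      _ = (t + 1) * Ein G 𝓡 + (t + 1) * (2 * (𝓡.card * (2 * c + 1))) := by ring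
      _ ≤ _ := by omega

/-- Asymptotic upper bound. -/
theorem upper_asym (c t : ℕ) (ε : ℝ) (hε : 0 < ε) :
    ∀ᶠ n : ℕ in atTop, ∀ P : Fin n → ℝ × ℝ, GenPos P → ∀ G : SimpleGraph (Fin n),
      (∀ a b c' : ℝ, (a ≠ 0 ∨ b ≠ 0) →
        {x ∈ G.edgeSet | Meets P a b c' x}.ncard < 2 * c + 1 + 1) →
      (G.edgeSet.ncard : ℝ) ≤ ((c : ℝ) / (t + 1) + t / 2 + ε) * n := by
  obtain ⟨s, hs⟩ : ∃ s : ℕ, 1 ≤ s ∧ (2 * (c : ℝ) + 1) / s ≤ ε / 4 := by
    obtain ⟨s, hs⟩ := exists_nat_gt ((2 * (c : ℝ) + 1) / (ε / 4))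
    have hpos : 0 < (2 * (c : ℝ) + 1) / (ε / 4) := by positivity
    have hs0 : (0 : ℝ) < s := hpos.trans hs
    refine ⟨s, by exact_mod_cast hs0, ?_⟩
    rw [div_lt_iff₀ (by positivity)] at hs
    rw [div_le_iff₀ hs0]
    linarith
  obtain ⟨hs1, hs2⟩ := hs
  have hs0 : (0 : ℝ) < s := by exact_mod_cast hs1
  set η : ℝ := ε ^ 2 / (32 * s ^ 4) with hη
  have hηpos : 0 < η := by positivity
  have ev1 : ∀ᶠ n : ℕ in atTop, 8 * ((s : ℝ) ^ 3 + 4 * s ^ 4) / ε ^ 2 ≤ n :=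
    tendsto_natCast_atTop_atTop.eventually_ge_atTop _
  have ev2 : ∀ᶠ n : ℕ in atTop, 4 * (2 * (c : ℝ) + 1) * (1 + s / η) / ε ≤ n :=
    tendsto_natCast_atTop_atTop.eventually_ge_atTop _
  filter_upwards [ev1, ev2, eventually_ge_atTop 1] with n hn1 hn2 hn0 P hP G hk
  have hn : (0 : ℝ) < n := by exact_mod_cast hn0
  set D : ℕ := ⌈η * n⌉₊ with hDdef
  have hD1 : 1 ≤ D := Nat.one_le_iff_ne_zero.2 (by
    rw [hDdef]
    exact (Nat.ceil_pos.2 (by positivity)).ne')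
  have hDlow : η * n ≤ D := Nat.le_ceil _
  have hDup : (D : ℝ) ≤ η * n + 1 := (Nat.ceil_lt_add_one (by positivity)).le
  have hD0 : (0 : ℝ) < D := by exact_mod_cast hD1
  obtain ⟨R, d, hR, hd, he⟩ := quant P hP G c t s D hs1 hD1 hk
  have hR' : (R : ℝ) * D ≤ (n / s + 1) * D + n * s := by
    have h1 : ((n / s : ℕ) : ℝ) ≤ n / s := Nat.cast_div_le
    have h2 : (R : ℝ) * D ≤ (((n / s : ℕ) : ℝ) + 1) * D + n * s := by exact_mod_cast hR
    have h3 : (((n / s : ℕ) : ℝ) + 1) * D ≤ (n / s + 1) * D := by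
      apply mul_le_mul_of_nonneg_right _ hD0.le
      linarith
    linarith
  have hRb : (R : ℝ) ≤ n / s + 1 + s / η := by
    have h1 : (n : ℝ) * s ≤ (s / η) * D := by
      calc (n : ℝ) * s = (s / η) * (η * n) := by field_simp
        _ ≤ (s / η) * D := by
            apply mul_le_mul_of_nonneg_left hDlow
            positivity
    have h2 : (R : ℝ) * D ≤ (n / s + 1 + s / η) * D := by
      calc (R : ℝ) * D ≤ (n / s + 1) * D + n * s := hR'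
        _ ≤ (n / s + 1) * D + (s / η) * D := by linarith
        _ = (n / s + 1 + s / η) * D := by ring
    exact le_of_mul_le_mul_right h2 hD0
  have hRM : (R : ℝ) * (2 * c + 1) ≤ ε / 2 * n := by
    have h1 : (n : ℝ) / s * (2 * c + 1) ≤ ε / 4 * n := by
      calc (n : ℝ) / s * (2 * c + 1) = (2 * (c : ℝ) + 1) / s * n := by ring
        _ ≤ ε / 4 * n := mul_le_mul_of_nonneg_right hs2 hn.le
    have h2 : (1 + s / η) * (2 * (c : ℝ) + 1) ≤ ε / 4 * n := by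
      rw [div_le_iff₀ hε] at hn2
      nlinarith
    calc (R : ℝ) * (2 * c + 1) ≤ (n / s + 1 + s / η) * (2 * c + 1) := by
          apply mul_le_mul_of_nonneg_right hRb
          positivity
      _ = (n : ℝ) / s * (2 * c + 1) + (1 + s / η) * (2 * (c : ℝ) + 1) := by ring
      _ ≤ ε / 4 * n + ε / 4 * n := add_le_add h1 h2
      _ = ε / 2 * n := by ring
  have hsd : (s : ℝ) * d ≤ ε / 2 * n := by
    have hd' : (d : ℝ) * d ≤ n * s + 2 * (n * (s * s * (2 * D))) := by exact_mod_cast hd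
    have h1 : ((s : ℝ) * d) ^ 2 ≤ (ε / 2 * n) ^ 2 := by
      have e1 : ((s : ℝ) * d) ^ 2 = s ^ 2 * ((d : ℝ) * d) := by ring
      have e2 : (s : ℝ) ^ 2 * ((d : ℝ) * d) ≤ s ^ 2 * (n * s + 2 * (n * (s * s * (2 * D)))) :=
        mul_le_mul_of_nonneg_left hd' (by positivity)
      have e3 : (s : ℝ) ^ 2 * (n * s + 2 * (n * (s * s * (2 * D)))) =
          s ^ 3 * n + 4 * s ^ 4 * n * D := by ring
      have e4 : 4 * (s : ℝ) ^ 4 * n * D ≤ 4 * s ^ 4 * n * (η * n + 1) :=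
        mul_le_mul_of_nonneg_left hDup (by positivity)
      have e5 : 4 * (s : ℝ) ^ 4 * n * (η * n + 1) = ε ^ 2 / 8 * n ^ 2 + 4 * s ^ 4 * n := by
        rw [hη]; field_simp; ring
      have e6 : ((s : ℝ) ^ 3 + 4 * s ^ 4) * n ≤ ε ^ 2 / 8 * n ^ 2 := by
        rw [div_le_iff₀ (by positivity)] at hn1
        nlinarith
      have e7 : (ε / 2 * n) ^ 2 = ε ^ 2 / 8 * n ^ 2 + ε ^ 2 / 8 * n ^ 2 := by ring
      rw [e1, e7]
      nlinarith
    exact le_of_sq_le_sq h1 (by positivity)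
  have he' : ((t : ℝ) + 1) * (2 * G.edgeSet.ncard) ≤ (2 * c + t * (t + 1)) * n +
      (t + 1) * (s * d) + (t + 1) * (2 * (R * (2 * c + 1))) := by exact_mod_cast he
  have ht : (0 : ℝ) < t + 1 := by positivity
  have hfin : ((t : ℝ) + 1) * (2 * G.edgeSet.ncard) ≤
      (t + 1) * (2 * (((c : ℝ) / (t + 1) + t / 2 + ε) * n)) := by
    have e1 : ((t : ℝ) + 1) * (2 * (((c : ℝ) / (t + 1) + t / 2 + ε) * n)) =
        (2 * c + t * (t + 1)) * n + (t + 1) * (2 * ε * n) := by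
      field_simp
    rw [e1]
    have e2 : ((t : ℝ) + 1) * (s * d) ≤ (t + 1) * (ε / 2 * n) :=
      mul_le_mul_of_nonneg_left hsd ht.le
    have e3 : ((t : ℝ) + 1) * (2 * (R * (2 * c + 1))) ≤ (t + 1) * (2 * (ε / 2 * n)) := by
      apply mul_le_mul_of_nonneg_left _ ht.le
      linarith
    have e4 : 0 < ((t : ℝ) + 1) * (ε * n) := by positivity
    have e5 : ((t : ℝ) + 1) * (ε / 2 * n) + (t + 1) * (2 * (ε / 2 * n)) =
        (t + 1) * (2 * ε * n) - (1 / 2) * ((t + 1) * (ε * n)) := by ring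
    linarith
  have := le_of_mul_le_mul_left hfin ht
  linarith

end Pool.Agent.W140.GG
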