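import Pool.Agent.W140.GG.Defs

namespace Pool.Agent.W140.GG

open Finset

section E2
variable {V : Type*} (G : SimpleGraph V)

open Classical in
lemma E2_mono {A A' B B' : Finset V} (hA : A ⊆ A') (hB : B ⊆ B') :
    E2 G A B ≤ E2 G A' B' := by
  unfold E2
  apply card_le_card
  intro p hp
  simp only [mem_filter, mem_product] at hp ⊢
  exact ⟨⟨hA hp.1.1, hB hp.1.2⟩, hp.2⟩

open Classical in
lemma E2_union_left [DecidableEq V] {A A' B : Finset V} (h : Disjoint A A') :
    E2 G (A ∪ A') B = E2 G A B + E2 G A' B := by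
  unfold E2
  rw [← card_union_of_disjoint]
  · congr 1
    ext p
    simp only [mem_filter, mem_product, mem_union]
    tauto
  · rw [Finset.disjoint_left] at h ⊢
    intro p hp hp'
    simp only [mem_filter, mem_product] at hp hp'
    exact h hp.1.1 hp'.1.1

open Classical in
lemma E2_comm (A B : Finset V) : E2 G A B = E2 G B A := by
  unfold E2
  apply card_bij (fun p _ => (p.2, p.1))
  · intro p hp
    simp only [mem_filter, mem_product] at hp ⊢
    exact ⟨⟨hp.1.2, hp.1.1⟩, hp.2.symm⟩
  · intro p _ q _ h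
    simp only [Prod.mk.injEq] at h
    exact Prod.ext h.2 h.1
  · intro p hp
    refine ⟨(p.2, p.1), ?_, rfl⟩
    simp only [mem_filter, mem_product] at hp ⊢
    exact ⟨⟨hp.1.2, hp.1.1⟩, hp.2.symm⟩

lemma E2_union_right [DecidableEq V] {A B B' : Finset V} (h : Disjoint B B') :
    E2 G A (B ∪ B') = E2 G A B + E2 G A B' := by
  rw [E2_comm, E2_union_left G h, E2_comm G B, E2_comm G B']

open Classical in
lemma E2_self_le (B : Finset V) : E2 G B B ≤ B.card * (B.card - 1) := by
  have h1 : E2 G B B ≤ B.offDiag.card := by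
    unfold E2
    apply card_le_card
    intro p hp
    simp only [mem_filter, mem_product] at hp
    rw [mem_offDiag]
    exact ⟨hp.1.1, hp.1.2, hp.2.ne⟩
  rw [offDiag_card] at h1
  rwa [Nat.mul_sub_one]

lemma E2_empty_left (B : Finset V) : E2 G ∅ B = 0 := by
  classical
  unfold E2
  simp

end E2

open Classical in
lemma E2_univ {V : Type*} [Fintype V] (G : SimpleGraph V) :
    E2 G univ univ = 2 * G.edgeSet.ncard := by
  have h1 : G.edgeSet.ncard = G.edgeFinset.card := by
    rw [← SimpleGraph.coe_edgeFinset, Set.ncard_coe_finset]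
  rw [h1, ← SimpleGraph.sum_degrees_eq_twice_card_edges]
  unfold E2
  rw [univ_product_univ, card_filter, Fintype.sum_prod_type]
  apply sum_congr rfl
  intro v _
  rw [← SimpleGraph.card_neighborFinset_eq_degree, ← card_filter]
  congr 1
  ext w
  simp

/-- Chain lemma: for a chain `∅ = A 0 ⊆ A 1 ⊆ ... ⊆ A m = U`. -/
lemma chain_le {V : Type*} [DecidableEq V] (G : SimpleGraph V) (U : Finset V)
    (A : ℕ → Finset V) (hA0 : A 0 = ∅) (hmono : Monotone A) (hU : ∀ i, A i ⊆ U) (m : ℕ) :
    E2 G (A m) (A m) ≤
      (∑ i ∈ range m, ((A (i + 1)).card - (A i).card) * ((A (i + 1)).card - (A i).card - 1)) +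
        2 * ∑ i ∈ range m, E2 G (A i) (U \ A i) := by
  induction m with
  | zero => simp [hA0, E2_empty_left]
  | succ m ih =>
    have hsub : A m ⊆ A (m + 1) := hmono (Nat.le_succ m)
    set B := A (m + 1) \ A m with hB
    have hdis : Disjoint (A m) B := disjoint_sdiff
    have hun : A (m + 1) = A m ∪ B := by rw [hB, union_sdiff_of_subset hsub]
    have h1 : E2 G (A (m + 1)) (A (m + 1)) = E2 G (A m) (A m) + E2 G B B + 2 * E2 G (A m) B := by
      rw [hun, E2_union_left G hdis, E2_union_right G hdis, E2_union_right G hdis,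
        E2_comm G B (A m)]
      ring
    have h2 : E2 G B B ≤ ((A (m + 1)).card - (A m).card) *
        ((A (m + 1)).card - (A m).card - 1) := by
      have := E2_self_le G B
      rwa [hB, card_sdiff_of_subset hsub] at this
    have h3 : E2 G (A m) B ≤ E2 G (A m) (U \ A m) := by
      apply E2_mono G (Subset.refl _)
      rw [hB]
      exact sdiff_subset_sdiff (hU _) (Subset.refl _)
    rw [h1, sum_range_succ, sum_range_succ]
    omega

end Pool.Agent.W140.GG
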