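import Pool.Agent.W140.GG.Geo

namespace Pool.Agent.W140.GG

open Finset

variable {ι : Type*} [Fintype ι] [DecidableEq ι]

lemma cut_split (G : SimpleGraph ι) {L R S : Finset ι} (hdis : Disjoint L R) :
    E2 G (S ∩ L) (L \ (S ∩ L)) + E2 G (S ∩ R) (R \ (S ∩ R)) ≤ E2 G S Sᶜ := by
  have hd : Disjoint (S ∩ L) (S ∩ R) := by
    rw [Finset.disjoint_left] at hdis ⊢
    intro z hz hz'
    exact hdis (mem_inter.1 hz).2 (mem_inter.1 hz').2
  calc E2 G (S ∩ L) (L \ (S ∩ L)) + E2 G (S ∩ R) (R \ (S ∩ R))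
      ≤ E2 G (S ∩ L) Sᶜ + E2 G (S ∩ R) Sᶜ := by
        apply Nat.add_le_add
        · apply E2_mono G (Subset.refl _)
          intro z hz
          simp only [mem_sdiff, mem_inter, not_and, mem_compl] at hz ⊢
          exact fun h => hz.2 h hz.1
        · apply E2_mono G (Subset.refl _)
          intro z hz
          simp only [mem_sdiff, mem_inter, not_and, mem_compl] at hz ⊢
          exact fun h => hz.2 h hz.1
    _ = E2 G ((S ∩ L) ∪ (S ∩ R)) Sᶜ := (E2_union_left G hd).symm
    _ ≤ E2 G S Sᶜ := by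
        apply E2_mono G _ (Subset.refl _)
        exact union_subset inter_subset_left inter_subset_left

lemma chain_use (G : SimpleGraph ι) (U : Finset ι) (m : ℕ) (hm : 1 ≤ m) (α : ℕ → ℕ)
    (hα0 : α 0 = 0) (hαm : α m = U.card) (hα : ∀ i, i < m → α i < α (i + 1))
    (T : ℕ → Finset ι) (hTc : ∀ i, i < m → (T i ∩ U).card = α i)
    (hT : ∀ i i', i ≤ i' → i' < m → T i ∩ U ⊆ T i' ∩ U) :
    E2 G U U ≤ (∑ i ∈ range m, (α (i + 1) - α i) * (α (i + 1) - α i - 1)) +
      2 * ∑ i ∈ Ico 1 m, E2 G (T i ∩ U) (U \ (T i ∩ U)) := by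
  classical
  set A : ℕ → Finset ι := fun i => if i < m then T i ∩ U else U with hA
  have hA0 : A 0 = ∅ := by
    have h0 : 0 < m := hm
    simp only [hA, h0, if_true]
    rw [← card_eq_zero, hTc 0 h0, hα0]
  have hAm : A m = U := by simp [hA]
  have hU : ∀ i, A i ⊆ U := by
    intro i
    simp only [hA]
    split_ifs
    · exact inter_subset_right
    · exact Subset.refl _
  have hmono : Monotone A := by
    intro i j hij
    by_cases hj : j < m
    · have hi : i < m := lt_of_le_of_lt hij hj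
      simp only [hA, hi, hj, if_true]
      exact hT i j hij hj
    · have : A j = U := by simp [hA, hj]
      rw [this]
      exact hU i
  have hcard : ∀ i, i ≤ m → (A i).card = α i := by
    intro i hi
    rcases hi.lt_or_eq with h | h
    · simp only [hA, h, if_true]
      exact hTc i h
    · rw [h, hAm, hαm]
  have key := chain_le G U A hA0 hmono hU m
  rw [hAm] at key
  have s1 : ∑ i ∈ range m, ((A (i + 1)).card - (A i).card) * ((A (i + 1)).card - (A i).card - 1)
      = ∑ i ∈ range m, (α (i + 1) - α i) * (α (i + 1) - α i - 1) := by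
    apply sum_congr rfl
    intro i hi
    rw [mem_range] at hi
    rw [hcard i hi.le, hcard (i + 1) hi]
  have s2 : ∑ i ∈ range m, E2 G (A i) (U \ A i) =
      ∑ i ∈ Ico 1 m, E2 G (T i ∩ U) (U \ (T i ∩ U)) := by
    rw [range_eq_Ico, ← sum_Ioo_add_eq_sum_Ico (by omega : 0 < m)]
    rw [hA0, E2_empty_left, add_zero]
    have : Ioo 0 m = Ico 1 m := by ext z; simp; omega
    rw [this]
    apply sum_congr rfl
    intro i hi
    rw [mem_Ico] at hi
    simp only [hA, hi.2, if_true]
  rw [s1, s2] at key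
  exact key

/-- The block bound. -/
theorem block_bound (x y : ι → ℝ) (hNC : NC x y) (G : SimpleGraph ι) (M : ℕ)
    (hM : ∀ S, Sep2 x y S → E2 G S Sᶜ ≤ M) (L R : Finset ι) (hdis : Disjoint L R)
    (hun : L ∪ R = univ) (hsep : ∀ u ∈ L, ∀ v ∈ R, x u < x v) (m : ℕ) (hm : 1 ≤ m)
    (α β : ℕ → ℕ) (hα0 : α 0 = 0) (hαm : α m = L.card) (hα : ∀ i, i < m → α i < α (i + 1))
    (hβ0 : β 0 = 0) (hβm : β m = R.card) (hβ : ∀ i, i < m → β i < β (i + 1)) :
    2 * G.edgeSet.ncard ≤ 2 * m * M +
      (∑ i ∈ range m, (α (i + 1) - α i) * (α (i + 1) - α i - 1)) +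
      ∑ i ∈ range m, (β (i + 1) - β i) * (β (i + 1) - β i - 1) := by
  classical
  obtain ⟨S, hS1, hS2, hS3⟩ := grid x y hNC L R hsep
  have αlt : ∀ i, i < m → α i < L.card := by
    intro i hi
    rw [← hαm]
    obtain ⟨d, rfl⟩ := Nat.exists_eq_add_of_lt hi
    clear hm hαm hβm hi
    induction d with
    | zero => exact hα i (by omega)
    | succ d ih =>
      have h1 := ih (fun j hj => hα j (by omega)) (fun j hj => hβ j (by omega))
      have h2 := hα (i + d + 1) (by omega)
      have : i + (d + 1) + 1 = i + d + 1 + 1 := by ring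
      rw [this]
      omega
  have βlt : ∀ i, i < m → β i < R.card := by
    intro i hi
    rw [← hβm]
    obtain ⟨d, rfl⟩ := Nat.exists_eq_add_of_lt hi
    clear hm hαm hβm hi αlt
    induction d with
    | zero => exact hβ i (by omega)
    | succ d ih =>
      have h1 := ih (fun j hj => hα j (by omega)) (fun j hj => hβ j (by omega))
      have h2 := hβ (i + d + 1) (by omega)
      have : i + (d + 1) + 1 = i + d + 1 + 1 := by ring
      rw [this]
      omega
  have αmono : ∀ i i', i ≤ i' → i' < m → α i ≤ α i' := by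
    intro i i' h1 h2
    induction i', h1 using Nat.le_induction with
    | base => exact le_refl _
    | succ k hk ih =>
      have := ih (by omega)
      have := hα k (by omega)
      omega
  have βmono : ∀ i i', i ≤ i' → i' < m → β i ≤ β i' := by
    intro i i' h1 h2
    induction i', h1 using Nat.le_induction with
    | base => exact le_refl _
    | succ k hk ih =>
      have := ih (by omega)
      have := hβ k (by omega)
      omega
  set CL := ∑ i ∈ range m, (α (i + 1) - α i) * (α (i + 1) - α i - 1) with hCL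
  set CR := ∑ i ∈ range m, (β (i + 1) - β i) * (β (i + 1) - β i - 1) with hCR
  have hL : ∀ j, j < m → E2 G L L ≤ CL +
      2 * ∑ i ∈ Ico 1 m, E2 G (S (α i) (β j) ∩ L) (L \ (S (α i) (β j) ∩ L)) := by
    intro j hj
    apply chain_use G L m hm α hα0 hαm hα (fun i => S (α i) (β j))
    · intro i hi
      exact (hS1 _ _ (αlt i hi) (βlt j hj)).2.1
    · intro i i' h1 h2
      exact hS2 _ _ _ (βlt j hj) (αmono i i' h1 h2) (αlt i' h2)
  have hR : ∀ i, i < m → E2 G R R ≤ CR +
      2 * ∑ j ∈ Ico 1 m, E2 G (S (α i) (β j) ∩ R) (R \ (S (α i) (β j) ∩ R)) := by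
    intro i hi
    apply chain_use G R m hm β hβ0 hβm hβ (fun j => S (α i) (β j))
    · intro j hj
      exact (hS1 _ _ (αlt i hi) (βlt j hj)).2.2
    · intro j j' h1 h2
      exact hS3 _ _ _ (αlt i hi) (βmono j j' h1 h2) (βlt j' h2)
  -- the middle line
  have hmid : E2 G L R ≤ M := by
    have hc : Lᶜ = R := by
      ext z
      rw [mem_compl]
      have hz : z ∈ L ∪ R := by rw [hun]; exact mem_univ z
      rw [mem_union] at hz
      constructor
      · intro h; tauto
      · intro h h'
        exact (Finset.disjoint_left.1 hdis) h' h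
    rw [← hc]
    apply hM
    rcases L.eq_empty_or_nonempty with hL0 | hL0
    · exfalso
      have := αlt 0 (by omega)
      rw [hL0, card_empty] at this
      omega
    · obtain ⟨j, hj, hmax⟩ := exists_max_image L (fun i => x i) hL0
      rcases R.eq_empty_or_nonempty with hR0 | hR0
      · exfalso
        have := βlt 0 (by omega)
        rw [hR0, card_empty] at this
        omega
      · obtain ⟨k, hk, hmin⟩ := exists_min_image R (fun i => x i) hR0
        refine ⟨1, 0, (x j + x k) / 2, ?_, ?_⟩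
        · intro i hi
          have h1 := hmax i hi
          have h2 := hsep j hj k hk
          linarith
        · intro i hi
          have hiR : i ∈ R := by rw [← hc]; exact mem_compl.2 hi
          have h1 := hmin i hiR
          have h2 := hsep j hj k hk
          linarith
  have htot : E2 G univ univ = E2 G L L + E2 G R R + 2 * E2 G L R := by
    rw [← hun, E2_union_left G hdis, E2_union_right G hdis, E2_union_right G hdis,
      E2_comm G R L]
    ring
  rw [← E2_univ, htot]
  -- sum up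
  have hLs : (m - 1) * E2 G L L ≤ (m - 1) * CL +
      2 * ∑ j ∈ Ico 1 m, ∑ i ∈ Ico 1 m,
        E2 G (S (α i) (β j) ∩ L) (L \ (S (α i) (β j) ∩ L)) := by
    have := sum_le_sum (s := Ico 1 m) (fun j hj => hL j (mem_Ico.1 hj).2)
    rw [sum_const, Nat.card_Ico, sum_add_distrib, sum_const, Nat.card_Ico, ← mul_sum] at this
    simpa using this
  have hRs : (m - 1) * E2 G R R ≤ (m - 1) * CR +
      2 * ∑ j ∈ Ico 1 m, ∑ i ∈ Ico 1 m,
        E2 G (S (α i) (β j) ∩ R) (R \ (S (α i) (β j) ∩ R)) := by
    have := sum_le_sum (s := Ico 1 m) (fun j hj => hR j (mem_Ico.1 hj).2)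
    rw [sum_const, Nat.card_Ico, sum_add_distrib, sum_const, Nat.card_Ico, ← mul_sum] at this
    rw [sum_comm]
    simpa using this
  have hcut : (∑ j ∈ Ico 1 m, ∑ i ∈ Ico 1 m,
        E2 G (S (α i) (β j) ∩ L) (L \ (S (α i) (β j) ∩ L))) +
      (∑ j ∈ Ico 1 m, ∑ i ∈ Ico 1 m,
        E2 G (S (α i) (β j) ∩ R) (R \ (S (α i) (β j) ∩ R))) ≤ (m - 1) * ((m - 1) * M) := by
    rw [← sum_add_distrib]
    have : ∀ j ∈ Ico 1 m, (∑ i ∈ Ico 1 m,
        E2 G (S (α i) (β j) ∩ L) (L \ (S (α i) (β j) ∩ L))) +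
        (∑ i ∈ Ico 1 m, E2 G (S (α i) (β j) ∩ R) (R \ (S (α i) (β j) ∩ R))) ≤ (m - 1) * M := by
      intro j hj
      rw [mem_Ico] at hj
      rw [← sum_add_distrib]
      have : ∀ i ∈ Ico 1 m, E2 G (S (α i) (β j) ∩ L) (L \ (S (α i) (β j) ∩ L)) +
          E2 G (S (α i) (β j) ∩ R) (R \ (S (α i) (β j) ∩ R)) ≤ M := by
        intro i hi
        rw [mem_Ico] at hi
        exact (cut_split G hdis).trans (hM _ (hS1 _ _ (αlt i hi.2) (βlt j hj.2)).1)
      have := sum_le_sum this
      simpa using this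
    have := sum_le_sum this
    simpa using this
  have hcomb : (m - 1) * (E2 G L L + E2 G R R) ≤ (m - 1) * (CL + CR + 2 * ((m - 1) * M)) := by
    nlinarith
  rcases Nat.eq_or_lt_of_le hm with h1 | h1
  · have e1 := hL 0 (by omega)
    have e2 := hR 0 (by omega)
    rw [← h1] at e1 e2
    simp only [Ico_self, sum_empty, mul_zero, add_zero] at e1 e2
    rw [← h1]
    omega
  · have hpos : 0 < m - 1 := by omega
    have := Nat.le_of_mul_le_mul_left hcomb hpos
    obtain ⟨k, rfl⟩ : ∃ k, m = k + 1 := ⟨m - 1, by omega⟩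
    simp only [Nat.add_sub_cancel] at this
    nlinarith

end Pool.Agent.W140.GG
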