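import Pool.Agent.W140.GG.Part

namespace Pool.Agent.W140.GG

open Finset

variable {ι : Type*} [Fintype ι] [DecidableEq ι]

open Classical in
/-- adjacent pairs inside cells -/
noncomputable def Ein (G : SimpleGraph ι) (𝓡 : Finset (Finset ι)) : ℕ :=
  ((univ : Finset (ι × ι)).filter (fun p => p.2 ∈ cl 𝓡 p.1 ∧ G.Adj p.1 p.2)).card

lemma E2_univ_le (G : SimpleGraph ι) (𝓡 : Finset (Finset ι)) (M : ℕ)
    (hM : ∀ R ∈ 𝓡, E2 G R Rᶜ ≤ M) : E2 G univ univ ≤ Ein G 𝓡 + 2 * (𝓡.card * M) := by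
  classical
  have hsub : ((univ ×ˢ univ : Finset (ι × ι)).filter (fun p => G.Adj p.1 p.2)) ⊆
      ((univ : Finset (ι × ι)).filter (fun p => p.2 ∈ cl 𝓡 p.1 ∧ G.Adj p.1 p.2)) ∪
      (𝓡.biUnion (fun R => (R ×ˢ Rᶜ).filter (fun p => G.Adj p.1 p.2)) ∪
        𝓡.biUnion (fun R => (Rᶜ ×ˢ R).filter (fun p => G.Adj p.1 p.2))) := by
    intro p hp
    rw [mem_filter] at hp
    rw [mem_union, mem_union, mem_filter]
    by_cases h : p.2 ∈ cl 𝓡 p.1
    · exact Or.inl ⟨mem_univ _, h, hp.2⟩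
    · right
      rw [mem_cl] at h
      push Not at h
      obtain ⟨R, hR, h⟩ := h
      rw [mem_biUnion, mem_biUnion]
      rcases h with h | h
      · right
        refine ⟨R, hR, ?_⟩
        rw [mem_filter, mem_product, mem_compl]
        exact ⟨⟨h.2, h.1⟩, hp.2⟩
      · left
        refine ⟨R, hR, ?_⟩
        rw [mem_filter, mem_product, mem_compl]
        exact ⟨⟨h.2, h.1⟩, hp.2⟩
  have h1 := card_le_card hsub
  have h2 := card_union_le ((univ : Finset (ι × ι)).filter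
    (fun p => p.2 ∈ cl 𝓡 p.1 ∧ G.Adj p.1 p.2))
      (𝓡.biUnion (fun R => (R ×ˢ Rᶜ).filter (fun p => G.Adj p.1 p.2)) ∪
        𝓡.biUnion (fun R => (Rᶜ ×ˢ R).filter (fun p => G.Adj p.1 p.2)))
  have h3 := card_union_le (𝓡.biUnion (fun R => (R ×ˢ Rᶜ).filter (fun p => G.Adj p.1 p.2)))
        (𝓡.biUnion (fun R => (Rᶜ ×ˢ R).filter (fun p => G.Adj p.1 p.2)))
  have h4 : (𝓡.biUnion (fun R => (R ×ˢ Rᶜ).filter (fun p => G.Adj p.1 p.2))).card ≤
      𝓡.card * M := by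
    apply card_biUnion_le_card_mul
    intro R hR
    have := hM R hR
    unfold E2 at this
    exact this
  have h5 : (𝓡.biUnion (fun R => (Rᶜ ×ˢ R).filter (fun p => G.Adj p.1 p.2))).card ≤
      𝓡.card * M := by
    apply card_biUnion_le_card_mul
    intro R hR
    have := hM R hR
    rw [E2_comm] at this
    unfold E2 at this
    exact this
  have h6 : E2 G univ univ = ((univ ×ˢ univ : Finset (ι × ι)).filter
      (fun p => G.Adj p.1 p.2)).card := by
    unfold E2; rfl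
  have h7 : Ein G 𝓡 = ((univ : Finset (ι × ι)).filter
    (fun p => p.2 ∈ cl 𝓡 p.1 ∧ G.Adj p.1 p.2)).card := by
    unfold Ein; rfl
  omega

lemma Ein_eq (G : SimpleGraph ι) (𝓡 : Finset (Finset ι)) :
    Ein G 𝓡 = ∑ C ∈ univ.image (cl 𝓡), E2 G C C := by
  classical
  have h1 : Ein G 𝓡 = ∑ v, ((cl 𝓡 v).filter (fun w => G.Adj v w)).card := by
    unfold Ein
    rw [← univ_product_univ, card_filter, sum_product]
    apply sum_congr rfl
    intro v _
    rw [← card_filter]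
    congr 1
    ext w
    simp
  rw [h1, ← sum_fiberwise_of_maps_to (g := cl 𝓡) (t := univ.image (cl 𝓡))
    (fun v _ => mem_image_of_mem _ (mem_univ v))]
  apply sum_congr rfl
  intro C hC
  rw [mem_image] at hC
  obtain ⟨v0, _, rfl⟩ := hC
  have h2 : univ.filter (fun v => cl 𝓡 v = cl 𝓡 v0) = cl 𝓡 v0 := by
    ext v
    rw [mem_filter, mem_cl_iff]
    simp
  rw [h2]
  unfold E2
  rw [card_filter, sum_product]
  apply sum_congr rfl
  intro v hv
  rw [← card_filter, cl_eq_of_mem hv]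

/-- dense cells -/
def Dense (G : SimpleGraph ι) (κ t : ℕ) (C : Finset ι) : Prop :=
  κ * C.card < (t + 1) * E2 G C C

open Classical in
/-- number of vertices in dense cells -/
noncomputable def dc (G : SimpleGraph ι) (𝓡 : Finset (Finset ι)) (κ t : ℕ) : ℕ :=
  (univ.filter (fun v => Dense G κ t (cl 𝓡 v))).card

lemma Ein_le (G : SimpleGraph ι) (𝓡 : Finset (Finset ι)) (κ t s : ℕ)
    (hs : ∀ v, (cl 𝓡 v).card ≤ s) :
    (t + 1) * Ein G 𝓡 ≤ κ * Fintype.card ι + (t + 1) * (s * dc G 𝓡 κ t) := by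
  classical
  have hcard : Fintype.card ι = ∑ C ∈ univ.image (cl 𝓡), C.card := by
    rw [← card_univ, card_eq_sum_card_fiberwise (f := cl 𝓡) (t := univ.image (cl 𝓡))
      (fun v _ => mem_image_of_mem _ (mem_univ v))]
    apply sum_congr rfl
    intro C hC
    rw [mem_image] at hC
    obtain ⟨v0, _, rfl⟩ := hC
    congr 1
    ext v
    rw [mem_filter, mem_cl_iff]
    simp
  have hdc : dc G 𝓡 κ t = ∑ C ∈ univ.image (cl 𝓡), (if Dense G κ t C then C.card else 0) := by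
    unfold dc
    rw [card_eq_sum_card_fiberwise (f := cl 𝓡) (t := univ.image (cl 𝓡))
      (fun v _ => mem_image_of_mem _ (mem_univ v))]
    apply sum_congr rfl
    intro C hC
    rw [mem_image] at hC
    obtain ⟨v0, _, rfl⟩ := hC
    split_ifs with h
    · congr 1
      ext v
      rw [mem_filter, mem_filter, mem_cl_iff]
      constructor
      · exact fun h' => h'.2
      · intro h'
        refine ⟨⟨mem_univ _, ?_⟩, h'⟩
        rw [h']; exact h
    · rw [card_eq_zero, eq_empty_iff_forall_notMem]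
      intro v hv
      rw [mem_filter, mem_filter] at hv
      apply h
      rw [← hv.2]
      exact hv.1.2
  rw [Ein_eq, hcard, hdc, mul_sum, mul_sum, mul_sum, mul_sum, ← sum_add_distrib]
  apply sum_le_sum
  intro C hC
  rw [mem_image] at hC
  obtain ⟨v0, _, rfl⟩ := hC
  split_ifs with h
  · have h1 := E2_self_le G (cl 𝓡 v0)
    have h2 : (cl 𝓡 v0).card * ((cl 𝓡 v0).card - 1) ≤ (cl 𝓡 v0).card * s := by
      apply Nat.mul_le_mul_left
      have := hs v0
      omega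
    have h3 : (t + 1) * E2 G (cl 𝓡 v0) (cl 𝓡 v0) ≤ (t + 1) * ((cl 𝓡 v0).card * s) :=
      Nat.mul_le_mul_left _ (h1.trans h2)
    have h4 : (cl 𝓡 v0).card * s = s * (cl 𝓡 v0).card := Nat.mul_comm _ _
    rw [h4] at h3
    omega
  · unfold Dense at h
    push Not at h
    simp only [mul_zero, add_zero]
    exact h

/-- the number of `w` whose cell is split by `S` -/
lemma split_count (𝓡 : Finset (Finset ι)) (S : Finset ι) :
    open Classical in
    (univ.filter (fun w => ∃ w₁ ∈ cl 𝓡 w, ∃ w₂ ∈ cl 𝓡 w, w₁ ∈ S ∧ w₂ ∉ S)).card ≤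
      2 * Xs 𝓡 S := by
  classical
  have hsub : univ.filter (fun w => ∃ w₁ ∈ cl 𝓡 w, ∃ w₂ ∈ cl 𝓡 w, w₁ ∈ S ∧ w₂ ∉ S) ⊆
      (((univ : Finset (ι × ι)).filter
        (fun p => p.2 ∈ cl 𝓡 p.1 ∧ p.1 ∈ S ∧ p.2 ∉ S)).image Prod.fst) ∪
      (((univ : Finset (ι × ι)).filter
        (fun p => p.2 ∈ cl 𝓡 p.1 ∧ p.1 ∈ S ∧ p.2 ∉ S)).image Prod.snd) := by
    intro w hw
    rw [mem_filter] at hw
    obtain ⟨_, w₁, h1, w₂, h2, h3, h4⟩ := hw
    rw [mem_union, mem_image, mem_image]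
    by_cases hwS : w ∈ S
    · left
      refine ⟨(w, w₂), ?_, rfl⟩
      rw [mem_filter]
      exact ⟨mem_univ _, h2, hwS, h4⟩
    · right
      refine ⟨(w₁, w), ?_, rfl⟩
      rw [mem_filter]
      refine ⟨mem_univ _, ?_, h3, hwS⟩
      show w ∈ cl 𝓡 w₁
      rw [cl_eq_of_mem h1]
      exact self_mem_cl _ _
  have h1 := card_le_card hsub
  have h2 := card_union_le (((univ : Finset (ι × ι)).filter
        (fun p => p.2 ∈ cl 𝓡 p.1 ∧ p.1 ∈ S ∧ p.2 ∉ S)).image Prod.fst)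
      (((univ : Finset (ι × ι)).filter
        (fun p => p.2 ∈ cl 𝓡 p.1 ∧ p.1 ∈ S ∧ p.2 ∉ S)).image Prod.snd)
  have h3 : (((univ : Finset (ι × ι)).filter
        (fun p => p.2 ∈ cl 𝓡 p.1 ∧ p.1 ∈ S ∧ p.2 ∉ S)).image Prod.fst).card ≤ Xs 𝓡 S :=
    card_image_le
  have h4 : (((univ : Finset (ι × ι)).filter
        (fun p => p.2 ∈ cl 𝓡 p.1 ∧ p.1 ∈ S ∧ p.2 ∉ S)).image Prod.snd).card ≤ Xs 𝓡 S :=
    card_image_le
  omega

/-- Dense vertices are few. -/
theorem dc_sq (x y : ι → ℝ) (hNC : NC x y) (G : SimpleGraph ι) (c t s D : ℕ)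
    (𝓡 : Finset (Finset ι)) (hR : ∀ R ∈ 𝓡, Sep2 x y R)
    (hM : ∀ S, Sep2 x y S → E2 G S Sᶜ ≤ 2 * c + 1)
    (hs : ∀ v, (cl 𝓡 v).card ≤ s) (hX : ∀ S, Sep2 x y S → Xs 𝓡 S < D) :
    (dc G 𝓡 (2 * c + t * (t + 1)) t) * (dc G 𝓡 (2 * c + t * (t + 1)) t) ≤
      Fintype.card ι * s + 2 * (Fintype.card ι * (s * s * (2 * D))) := by
  classical
  set κ := 2 * c + t * (t + 1) with hκ
  set Dn := univ.filter (fun v => Dense G κ t (cl 𝓡 v)) with hDn
  set bad : ι → ι → Prop := fun v w => ∃ u₁ ∈ cl 𝓡 v, ∃ u₂ ∈ cl 𝓡 v,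
    ∃ w₁ ∈ cl 𝓡 w, ∃ w₂ ∈ cl 𝓡 w, w₁ ∈ Lft x y u₁ u₂ ∧ w₂ ∉ Lft x y u₁ u₂ with hbad
  have hsub : Dn ×ˢ Dn ⊆ ((univ : Finset (ι × ι)).filter (fun p => p.2 ∈ cl 𝓡 p.1)) ∪
      (((univ : Finset (ι × ι)).filter (fun p => bad p.1 p.2)) ∪
        ((univ : Finset (ι × ι)).filter (fun p => bad p.2 p.1))) := by
    intro p hp
    rw [mem_product] at hp
    by_contra hcon
    rw [mem_union, mem_union, mem_filter, mem_filter, mem_filter] at hcon
    push Not at hcon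
    obtain ⟨c1, c2, c3⟩ := hcon
    have c1' := c1 (mem_univ _)
    have c2' := c2 (mem_univ _)
    have c3' := c3 (mem_univ _)
    have d1 : Dense G κ t (cl 𝓡 p.1) := (mem_filter.1 hp.1).2
    have d2 : Dense G κ t (cl 𝓡 p.2) := (mem_filter.1 hp.2).2
    rw [mem_cl] at c1'
    push Not at c1'
    obtain ⟨R, hRm, hcase⟩ := c1'
    have hXlft : ∀ u₁ ∈ cl 𝓡 p.1, ∀ u₂ ∈ cl 𝓡 p.1, ∀ v ∈ cl 𝓡 p.2, ∀ w ∈ cl 𝓡 p.2,
        v ∈ Lft x y u₁ u₂ → w ∈ Lft x y u₁ u₂ := by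
      intro u₁ h1 u₂ h2 v hv w hw h3
      by_contra h4
      exact c2' ⟨u₁, h1, u₂, h2, v, hv, w, hw, h3, h4⟩
    have hYlft : ∀ u₁ ∈ cl 𝓡 p.2, ∀ u₂ ∈ cl 𝓡 p.2, ∀ v ∈ cl 𝓡 p.1, ∀ w ∈ cl 𝓡 p.1,
        v ∈ Lft x y u₁ u₂ → w ∈ Lft x y u₁ u₂ := by
      intro u₁ h1 u₂ h2 v hv w hw h3
      by_contra h4
      exact c3' ⟨u₁, h1, u₂, h2, v, hv, w, hw, h3, h4⟩
    have side : ∀ v w : ι, w ∈ cl 𝓡 v → (w ∈ R ↔ v ∈ R) := fun v w h => mem_cl.1 h R hRm
    rcases hcase with ⟨h2, h1⟩ | ⟨h2, h1⟩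
    · obtain ⟨S, hS, hS2⟩ := two_cells' x y hNC G c t (cl 𝓡 p.2) (cl 𝓡 p.1) R (hR R hRm)
        (fun z hz => (side _ _ hz).2 h2)
        (by rw [Finset.disjoint_left]
            intro z hz hz'
            exact h1 ((side _ _ hz).1 hz')) hYlft hXlft d2 d1
      have := hM S hS
      omega
    · obtain ⟨S, hS, hS2⟩ := two_cells' x y hNC G c t (cl 𝓡 p.1) (cl 𝓡 p.2) R (hR R hRm)
        (fun z hz => (side _ _ hz).2 h1)
        (by rw [Finset.disjoint_left]
            intro z hz hz'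
            exact h2 ((side _ _ hz).1 hz')) hXlft hYlft d1 d2
      have := hM S hS
      omega
  have hB1 : ((univ : Finset (ι × ι)).filter (fun p => p.2 ∈ cl 𝓡 p.1)).card ≤
      Fintype.card ι * s := by
    have := Ph_eq 𝓡
    unfold Ph at this
    rw [this]
    calc ∑ v, (cl 𝓡 v).card ≤ ∑ _v : ι, s := sum_le_sum (fun v _ => hs v)
      _ = Fintype.card ι * s := by simp
  have hrow : ∀ v, (univ.filter (fun w => bad v w)).card ≤ s * s * (2 * D) := by
    intro v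
    have hsub2 : univ.filter (fun w => bad v w) ⊆ (cl 𝓡 v ×ˢ cl 𝓡 v).biUnion
        (fun q => univ.filter (fun w => ∃ w₁ ∈ cl 𝓡 w, ∃ w₂ ∈ cl 𝓡 w,
          w₁ ∈ Lft x y q.1 q.2 ∧ w₂ ∉ Lft x y q.1 q.2)) := by
      intro w hw
      rw [mem_filter] at hw
      obtain ⟨_, u₁, h1, u₂, h2, h3⟩ := hw
      rw [mem_biUnion]
      refine ⟨(u₁, u₂), mem_product.2 ⟨h1, h2⟩, ?_⟩
      rw [mem_filter]
      exact ⟨mem_univ _, h3⟩
    refine (card_le_card hsub2).trans ?_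
    refine (card_biUnion_le_card_mul _ _ (2 * D) ?_).trans ?_
    · intro q _
      have h1 := split_count 𝓡 (Lft x y q.1 q.2)
      have h2 := hX _ (sep2_Lft x y q.1 q.2)
      refine h1.trans ?_
      omega
    · rw [card_product]
      apply Nat.mul_le_mul_right
      exact Nat.mul_le_mul (hs v) (hs v)
  have hB2 : ((univ : Finset (ι × ι)).filter (fun p => bad p.1 p.2)).card ≤
      Fintype.card ι * (s * s * (2 * D)) := by
    rw [← univ_product_univ, card_filter, sum_product]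
    calc ∑ v : ι, ∑ w : ι, (if bad (v, w).1 (v, w).2 then 1 else 0)
        ≤ ∑ _v : ι, s * s * (2 * D) := by
          apply sum_le_sum
          intro v _
          rw [← card_filter]
          exact hrow v
      _ = Fintype.card ι * (s * s * (2 * D)) := by simp
  have hB3 : ((univ : Finset (ι × ι)).filter (fun p => bad p.2 p.1)).card ≤
      Fintype.card ι * (s * s * (2 * D)) := by
    rw [← univ_product_univ, card_filter, sum_product_right]
    calc ∑ v : ι, ∑ w : ι, (if bad (w, v).2 (w, v).1 then 1 else 0)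
        ≤ ∑ _v : ι, s * s * (2 * D) := by
          apply sum_le_sum
          intro v _
          rw [← card_filter]
          exact hrow v
      _ = Fintype.card ι * (s * s * (2 * D)) := by simp
  have h1 := card_le_card hsub
  have h2 := card_union_le ((univ : Finset (ι × ι)).filter (fun p => p.2 ∈ cl 𝓡 p.1))
      (((univ : Finset (ι × ι)).filter (fun p => bad p.1 p.2)) ∪
        ((univ : Finset (ι × ι)).filter (fun p => bad p.2 p.1)))
  have h3 := card_union_le ((univ : Finset (ι × ι)).filter (fun p => bad p.1 p.2))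
        ((univ : Finset (ι × ι)).filter (fun p => bad p.2 p.1))
  rw [card_product] at h1
  have h4 : dc G 𝓡 κ t = Dn.card := rfl
  rw [h4]
  omega

end Pool.Agent.W140.GG
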