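import Mathlib

/-!
Geometric graphs and lines meeting many edges (problem MP_b5bf4a_co): definitions.
-/

namespace Pool.Agent.W140.GG

/-- `n` points of the plane in general position: the points `P i` are distinct and no three
of them lie on a line. -/
def GenPos {n : ℕ} (P : Fin n → ℝ × ℝ) : Prop :=
  Function.Injective P ∧
    ∀ i j k : Fin n, i ≠ j → j ≠ k → i ≠ k →
      ¬ Collinear ℝ ({P i, P j, P k} : Set (ℝ × ℝ))

/-- The line `a x + b y = c` meets the relative interior of the segment that is the edge `e`. -/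
def Meets {n : ℕ} (P : Fin n → ℝ × ℝ) (a b c : ℝ) (e : Sym2 (Fin n)) : Prop :=
  ∃ i j : Fin n, e = s(i, j) ∧ ∃ z ∈ openSegment ℝ (P i) (P j), a * z.1 + b * z.2 = c

/-- Every geometric graph on `n` points in general position with at least `e` edges has a
straight line meeting the relative interiors of at least `k` of its edges. -/
def Forces (n k e : ℕ) : Prop :=
  ∀ P : Fin n → ℝ × ℝ, GenPos P → ∀ G : SimpleGraph (Fin n), e ≤ G.edgeSet.ncard →
    ∃ a b c : ℝ, (a ≠ 0 ∨ b ≠ 0) ∧ k ≤ {x ∈ G.edgeSet | Meets P a b c x}.ncard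

/-- `f n k`, the least `e` such that every geometric graph on `n` points with at least `e`
edges has a line meeting at least `k` of its edges. -/
noncomputable def f (n k : ℕ) : ℕ := sInf {e : ℕ | Forces n k e}

open Classical in
/-- The number of ordered pairs `(u, v)`, `u ∈ A`, `v ∈ B`, of adjacent vertices. -/
noncomputable def E2 {V : Type*} (G : SimpleGraph V) (A B : Finset V) : ℕ :=
  ((A ×ˢ B).filter (fun p => G.Adj p.1 p.2)).card

/-- `S` is cut off from the other points by a line missing all the points. -/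
def Sep {n : ℕ} (P : Fin n → ℝ × ℝ) (S : Finset (Fin n)) : Prop :=
  ∃ a b c : ℝ, (∀ i ∈ S, a * (P i).1 + b * (P i).2 < c) ∧
    (∀ i ∉ S, c < a * (P i).1 + b * (P i).2)

/-- Coordinates version of general position. -/
def NC {ι : Type*} (x y : ι → ℝ) : Prop :=
  ∀ i j k : ι, i ≠ j → j ≠ k → i ≠ k →
    (x j - x i) * (y k - y i) - (x k - x i) * (y j - y i) ≠ 0

/-- `S` is cut off by a line, in coordinates. -/
def Sep2 {ι : Type*} (x y : ι → ℝ) (S : Finset ι) : Prop :=
  ∃ a b c : ℝ, (∀ i ∈ S, a * x i + b * y i < c) ∧ (∀ i ∉ S, c < a * x i + b * y i)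

end Pool.Agent.W140.GG
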