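import Pool.Agent.W140.GG.Grid

namespace Pool.Agent.W140.GG

open Finset

section
variable {ι : Type*} [Fintype ι]

/-- slope matrix -/
noncomputable def sl (x y : ι → ℝ) (u v : ι) : ℝ := (y v - y u) / (x v - x u)

omit [Fintype ι] in
lemma sl_good (x y : ι → ℝ) (h : NC x y) (X Y : Finset ι)
    (hXY : ∀ u ∈ X, ∀ v ∈ Y, x u < x v) :
    Good (fun (u : X) (v : Y) => sl x y u v) where
  row u v v' e := by
    by_contra hne
    have hne' : (v : ι) ≠ v' := fun h => hne (Subtype.ext h)
    have h1 : x u < x v := hXY _ u.2 _ v.2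
    have h2 : x u < x v' := hXY _ u.2 _ v'.2
    have huv : (u : ι) ≠ v := fun h => by rw [h] at h1; exact lt_irrefl _ h1
    have huv' : (u : ι) ≠ v' := fun h => by rw [h] at h2; exact lt_irrefl _ h2
    apply h u v v' huv hne' huv'
    simp only [sl] at e
    rw [div_eq_div_iff (by linarith) (by linarith)] at e
    linarith
  col u u' v e := by
    by_contra hne
    have hne' : (u : ι) ≠ u' := fun h => hne (Subtype.ext h)
    have h1 : x u < x v := hXY _ u.2 _ v.2
    have h2 : x u' < x v := hXY _ u'.2 _ v.2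
    have huv : (u : ι) ≠ v := fun h => by rw [h] at h1; exact lt_irrefl _ h1
    have huv' : (u' : ι) ≠ v := fun h => by rw [h] at h2; exact lt_irrefl _ h2
    apply h v u u' (Ne.symm huv) hne' (Ne.symm huv')
    simp only [sl] at e
    rw [div_eq_div_iff (by linarith) (by linarith)] at e
    linarith
  ns u u' v v' h1 h2 h3 h4 := by
    have w1 : x u < x v := hXY _ u.2 _ v.2
    have w2 : x u' < x v := hXY _ u'.2 _ v.2
    have w3 : x u < x v' := hXY _ u.2 _ v'.2
    have w4 : x u' < x v' := hXY _ u'.2 _ v'.2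
    have e1 : sl x y u v * (x v - x u) = y v - y u := by
      unfold sl; field_simp [show x v - x u ≠ 0 by linarith]
    have e2 : sl x y u' v * (x v - x u') = y v - y u' := by
      unfold sl; field_simp [show x v - x u' ≠ 0 by linarith]
    have e3 : sl x y u v' * (x v' - x u) = y v' - y u := by
      unfold sl; field_simp [show x v' - x u ≠ 0 by linarith]
    have e4 : sl x y u' v' * (x v' - x u') = y v' - y u' := by
      unfold sl; field_simp [show x v' - x u' ≠ 0 by linarith]
    set c := max (sl x y u v') (sl x y u' v) with hc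
    have c1 : sl x y u v' ≤ c := le_max_left _ _
    have c2 : sl x y u' v ≤ c := le_max_right _ _
    have c3 : c < sl x y u v := max_lt h1 h2
    have c4 : c < sl x y u' v' := max_lt h3 h4
    have p1 : c * (x v - x u) < y v - y u := by
      rw [← e1]; exact mul_lt_mul_of_pos_right c3 (by linarith)
    have p4 : c * (x v' - x u') < y v' - y u' := by
      rw [← e4]; exact mul_lt_mul_of_pos_right c4 (by linarith)
    have p2 : y v - y u' ≤ c * (x v - x u') := by
      rw [← e2]; exact mul_le_mul_of_nonneg_right c2 (by linarith)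
    have p3 : y v' - y u ≤ c * (x v' - x u) := by
      rw [← e3]; exact mul_le_mul_of_nonneg_right c1 (by linarith)
    nlinarith

/-- the points strictly below the line through `u` and `v` -/
noncomputable def Blw (x y : ι → ℝ) (u v : ι) : Finset ι :=
  open Classical in univ.filter (fun i => y i < y u + sl x y u v * (x i - x u))

lemma mem_Blw (x y : ι → ℝ) (u v i : ι) :
    i ∈ Blw x y u v ↔ y i < y u + sl x y u v * (x i - x u) := by
  classical
  simp [Blw]

lemma sep2_of_lt (x y : ι → ℝ) (a b c : ℝ) (S : Finset ι)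
    (h1 : ∀ i ∈ S, a * x i + b * y i < c) (h2 : ∀ i ∉ S, c ≤ a * x i + b * y i) :
    Sep2 x y S := by
  rcases S.eq_empty_or_nonempty with rfl | hS
  · refine ⟨a, b, c - 1, by simp, ?_⟩
    intro i hi
    linarith [h2 i hi]
  · obtain ⟨j, hj, hmax⟩ := exists_max_image S (fun i => a * x i + b * y i) hS
    refine ⟨a, b, (a * x j + b * y j + c) / 2, ?_, ?_⟩
    · intro i hi
      have := hmax i hi
      have := h1 j hj
      linarith
    · intro i hi
      have := h2 i hi
      have := h1 j hj
      linarith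

lemma sep2_Blw (x y : ι → ℝ) (u v : ι) : Sep2 x y (Blw x y u v) := by
  apply sep2_of_lt x y (- sl x y u v) 1 (y u - sl x y u v * x u)
  · intro i hi
    rw [mem_Blw] at hi
    linarith
  · intro i hi
    rw [mem_Blw] at hi
    push Not at hi
    linarith

lemma mem_Blw_left (x y : ι → ℝ) {u v u' : ι} (h : x u < x v) (h' : x u' < x v) :
    u' ∈ Blw x y u v ↔ sl x y u v < sl x y u' v := by
  rw [mem_Blw]
  have e1 : sl x y u v * (x v - x u) = y v - y u := by
    unfold sl; field_simp [show x v - x u ≠ 0 by linarith]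
  have e2 : sl x y u' v * (x v - x u') = y v - y u' := by
    unfold sl; field_simp [show x v - x u' ≠ 0 by linarith]
  constructor
  · intro hlt
    have : sl x y u v * (x v - x u') < sl x y u' v * (x v - x u') := by
      rw [e2]; nlinarith
    exact lt_of_mul_lt_mul_right this (by linarith)
  · intro hlt
    have : sl x y u v * (x v - x u') < sl x y u' v * (x v - x u') :=
      mul_lt_mul_of_pos_right hlt (by linarith)
    nlinarith

lemma mem_Blw_right (x y : ι → ℝ) {u v v' : ι} (h' : x u < x v') :
    v' ∈ Blw x y u v ↔ sl x y u v' < sl x y u v := by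
  rw [mem_Blw]
  have e2 : sl x y u v' * (x v' - x u) = y v' - y u := by
    unfold sl; field_simp [show x v' - x u ≠ 0 by linarith]
  constructor
  · intro hlt
    have : sl x y u v' * (x v' - x u) < sl x y u v * (x v' - x u) := by
      rw [e2]; linarith
    exact lt_of_mul_lt_mul_right this (by linarith)
  · intro hlt
    have : sl x y u v' * (x v' - x u) < sl x y u v * (x v' - x u) :=
      mul_lt_mul_of_pos_right hlt (by linarith)
    linarith

/-- The grid of lines. -/
theorem grid [DecidableEq ι] (x y : ι → ℝ) (h : NC x y) (X Y : Finset ι)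
    (hXY : ∀ u ∈ X, ∀ v ∈ Y, x u < x v) :
    ∃ S : ℕ → ℕ → Finset ι,
      (∀ a b, a < X.card → b < Y.card →
        Sep2 x y (S a b) ∧ (S a b ∩ X).card = a ∧ (S a b ∩ Y).card = b) ∧
      (∀ b a a', b < Y.card → a ≤ a' → a' < X.card → S a b ∩ X ⊆ S a' b ∩ X) ∧
      (∀ a b b', a < X.card → b ≤ b' → b' < Y.card → S a b ∩ Y ⊆ S a b' ∩ Y) := by
  classical
  by_cases hne : X.Nonempty ∧ Y.Nonempty
  swap
  · refine ⟨fun _ _ => ∅, ?_, ?_, ?_⟩
    · intro a b ha hb
      exact absurd ⟨card_pos.1 (by omega), card_pos.1 (by omega)⟩ hne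
    · intro b a a' hb _ ha
      exact absurd ⟨card_pos.1 (by omega), card_pos.1 (by omega)⟩ hne
    · intro b a a' hb _ ha
      exact absurd ⟨card_pos.1 (by omega), card_pos.1 (by omega)⟩ hne
  obtain ⟨⟨u0, hu0⟩, ⟨v0, hv0⟩⟩ := hne
  have hg := sl_good x y h X Y hXY
  have hex : ∀ a b, ∃ p : X × Y, a < X.card → b < Y.card →
      (univ.filter (fun u' : X => sl x y p.1 p.2 < sl x y u' p.2)).card = a ∧
      (univ.filter (fun v' : Y => sl x y p.1 v' < sl x y p.1 p.2)).card = b := by
    intro a b
    by_cases hab : a < X.card ∧ b < Y.card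
    · obtain ⟨u, v, h1, h2⟩ := exists_pair hg a b (by simpa using hab.1) (by simpa using hab.2)
      exact ⟨(u, v), fun _ _ => ⟨h1, h2⟩⟩
    · exact ⟨(⟨u0, hu0⟩, ⟨v0, hv0⟩), fun h1 h2 => absurd ⟨h1, h2⟩ hab⟩
  choose p hp using hex
  have hX : ∀ a b, Blw x y (p a b).1 (p a b).2 ∩ X =
      (univ.filter (fun u' : X => sl x y (p a b).1 (p a b).2 < sl x y u' (p a b).2)).map
        (Function.Embedding.subtype _) := by
    intro a b
    ext i
    simp only [mem_inter, mem_map, mem_filter, mem_univ, true_and,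
      Function.Embedding.subtype_apply]
    constructor
    · rintro ⟨h1, h2⟩
      refine ⟨⟨i, h2⟩, ?_, rfl⟩
      rw [mem_Blw_left x y (hXY _ (p a b).1.2 _ (p a b).2.2) (hXY _ h2 _ (p a b).2.2)] at h1
      exact h1
    · rintro ⟨⟨j, hj⟩, h1, rfl⟩
      refine ⟨?_, hj⟩
      rw [mem_Blw_left x y (hXY _ (p a b).1.2 _ (p a b).2.2) (hXY _ hj _ (p a b).2.2)]
      exact h1
  have hY : ∀ a b, Blw x y (p a b).1 (p a b).2 ∩ Y =
      (univ.filter (fun v' : Y => sl x y (p a b).1 v' < sl x y (p a b).1 (p a b).2)).map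
        (Function.Embedding.subtype _) := by
    intro a b
    ext i
    simp only [mem_inter, mem_map, mem_filter, mem_univ, true_and,
      Function.Embedding.subtype_apply]
    constructor
    · rintro ⟨h1, h2⟩
      refine ⟨⟨i, h2⟩, ?_, rfl⟩
      rw [mem_Blw_right x y (hXY _ (p a b).1.2 _ h2)] at h1
      exact h1
    · rintro ⟨⟨j, hj⟩, h1, rfl⟩
      refine ⟨?_, hj⟩
      rw [mem_Blw_right x y (hXY _ (p a b).1.2 _ hj)]
      exact h1
  refine ⟨fun a b => Blw x y (p a b).1 (p a b).2, ?_, ?_, ?_⟩
  · intro a b ha hb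
    refine ⟨sep2_Blw _ _ _ _, ?_, ?_⟩
    · rw [hX, card_map]
      exact (hp a b ha hb).1
    · rw [hY, card_map]
      exact (hp a b ha hb).2
  · intro b a a' hb haa ha'
    rw [hX, hX]
    apply map_subset_map.2
    intro w hw
    simp only [mem_filter, mem_univ, true_and] at hw ⊢
    refine nested_A hg (u := (p a b).1) (v := (p a b).2) ?_ ?_ w hw
    · rw [(hp a b (by omega) hb).2, (hp a' b ha' hb).2]
    · rw [(hp a b (by omega) hb).1, (hp a' b ha' hb).1]
      exact haa
  · intro a b b' ha hbb hb'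
    rw [hY, hY]
    apply map_subset_map.2
    intro w hw
    simp only [mem_filter, mem_univ, true_and] at hw ⊢
    refine nested_B hg (u := (p a b).1) (v := (p a b).2) ?_ ?_ w hw
    · rw [(hp a b ha (by omega)).1, (hp a b' ha hb').1]
    · rw [(hp a b ha (by omega)).2, (hp a b' ha hb').2]
      exact hbb

end

end Pool.Agent.W140.GG
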