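import Pool.Agent.W140.GG.Basic

namespace Pool.Agent.W140.GG

open Finset

section Matrix

lemma exists_rank {β : Type*} [Fintype β] (g : β → ℝ) (hg : Function.Injective g) (b : ℕ)
    (hb : b < Fintype.card β) :
    ∃ v, (univ.filter (fun v' => g v' < g v)).card = b := by
  classical
  have hlt : ∀ v, (univ.filter (fun v' => g v' < g v)).card < Fintype.card β := by
    intro v
    apply card_lt_univ_of_notMem (x := v)
    simp
  let r : β → Fin (Fintype.card β) := fun v => ⟨_, hlt v⟩
  have hmono : ∀ v w, g v < g w →
      (univ.filter (fun v' => g v' < g v)).card < (univ.filter (fun v' => g v' < g w)).card := by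
    intro v w h
    apply card_lt_card
    rw [ssubset_iff_of_subset]
    · exact ⟨v, by simpa using h, by simp⟩
    · intro z hz
      simp only [mem_filter, mem_univ, true_and] at hz ⊢
      exact hz.trans h
  have hinj : Function.Injective r := by
    intro v w h
    by_contra hne
    have hne' : g v ≠ g w := fun h' => hne (hg h')
    have h1 : (univ.filter (fun v' => g v' < g v)).card =
        (univ.filter (fun v' => g v' < g w)).card := by
      simpa [r, Fin.ext_iff] using h
    rcases lt_or_gt_of_ne hne' with h2 | h2
    · exact absurd h1 (hmono _ _ h2).ne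
    · exact absurd h1 (hmono _ _ h2).ne'
  have hbij : Function.Bijective r := by
    rw [Fintype.bijective_iff_injective_and_card]
    exact ⟨hinj, by simp⟩
  obtain ⟨v, hv⟩ := hbij.2 ⟨b, hb⟩
  exact ⟨v, by simpa [r, Fin.ext_iff] using hv⟩

variable {α β : Type*} [Fintype α] [Fintype β]

/-- rows separate, columns separate, no saddle -/
structure Good (m : α → β → ℝ) : Prop where
  row : ∀ u v v', m u v = m u v' → v = v'
  col : ∀ u u' v, m u v = m u' v → u = u'
  ns : ∀ u u' v v', m u v' < m u v → m u' v < m u v → m u v' < m u' v' →
    m u' v < m u' v' → False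

lemma Good.neg {m : α → β → ℝ} (h : Good m) : Good (fun u v => - m u v) where
  row u v v' e := h.row u v v' (by simpa using e)
  col u u' v e := h.col u u' v (by simpa using e)
  ns u u' v v' h1 h2 h3 h4 := by
    simp only [neg_lt_neg_iff] at h1 h2 h3 h4
    exact h.ns u u' v' v h1 h3 h2 h4

lemma Good.transNeg {m : α → β → ℝ} (h : Good m) : Good (fun v u => - m u v) where
  row u v v' e := h.col _ _ _ (by simpa using e)
  col u u' v e := h.row _ _ _ (by simpa using e)
  ns v v' u u' h1 h2 h3 h4 := by
    simp only [neg_lt_neg_iff] at h1 h2 h3 h4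
    exact h.ns u u' v' v h2 h4 h1 h3

lemma key_imp {m : α → β → ℝ} (h : Good m) (b : ℕ) (V : α → β)
    (hV : ∀ u, (univ.filter (fun v' => m u v' < m u (V u))).card = b) (u u' : α)
    (h1 : m u (V u) < m u' (V u)) : m u (V u) < m u' (V u') := by
  classical
  by_contra hcon
  push Not at hcon
  have hsub : univ.filter (fun v' => m u' v' ≤ m u' (V u')) ⊆
      univ.filter (fun v' => m u v' < m u (V u)) := by
    intro w hw
    simp only [mem_filter, mem_univ, true_and] at hw ⊢
    by_contra hc
    push Not at hc
    by_cases hwV : w = V u
    · subst hwV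
      linarith
    · have hlt : m u (V u) < m u w := lt_of_le_of_ne hc (fun e => hwV (h.row _ _ _ e).symm)
      exact h.ns u u' w (V u) hlt (by linarith) h1 (by linarith)
  have hcard := card_le_card hsub
  have h2 : (univ.filter (fun v' => m u' v' ≤ m u' (V u'))).card = b + 1 := by
    have : univ.filter (fun v' => m u' v' ≤ m u' (V u')) =
        insert (V u') (univ.filter (fun v' => m u' v' < m u' (V u'))) := by
      ext w
      simp only [mem_filter, mem_univ, true_and, mem_insert]
      constructor
      · intro hw
        rcases hw.lt_or_eq with h3 | h3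
        · exact Or.inr h3
        · exact Or.inl (h.row _ _ _ h3)
      · rintro (rfl | h3)
        · exact le_refl _
        · exact h3.le
    rw [this, card_insert_of_notMem (by simp), hV]
  rw [h2, hV] at hcard
  omega

lemma card_gt_const {m : α → β → ℝ} (h : Good m) (b : ℕ) (V : α → β)
    (hV : ∀ u, (univ.filter (fun v' => m u v' < m u (V u))).card = b) (u : α) :
    (univ.filter (fun v' => m u (V u) < m u v')).card = Fintype.card β - (b + 1) := by
  classical
  have h1 : (univ : Finset β) = insert (V u) (univ.filter (fun v' => m u v' < m u (V u)) ∪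
      univ.filter (fun v' => m u (V u) < m u v')) := by
    ext w
    simp only [mem_univ, mem_insert, mem_union, mem_filter, true_and, true_iff]
    by_cases hw : w = V u
    · exact Or.inl hw
    · right
      rcases lt_trichotomy (m u w) (m u (V u)) with h2 | h2 | h2
      · exact Or.inl h2
      · exact absurd (h.row _ _ _ h2) hw
      · exact Or.inr h2
  have h2 : Fintype.card β = 1 + (b + (univ.filter (fun v' => m u (V u) < m u v')).card) := by
    rw [← card_univ]
    conv_lhs => rw [h1]
    rw [card_insert_of_notMem (by simp), card_union_of_disjoint, hV]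
    · ring
    · rw [Finset.disjoint_left]
      intro w hw hw'
      simp only [mem_filter, mem_univ, true_and] at hw hw'
      linarith
  omega

lemma key {m : α → β → ℝ} (h : Good m) (b : ℕ) (V : α → β)
    (hV : ∀ u, (univ.filter (fun v' => m u v' < m u (V u))).card = b) (u u' : α) :
    m u (V u) < m u' (V u) ↔ m u (V u) < m u' (V u') := by
  constructor
  · exact key_imp h b V hV u u'
  · intro h1
    by_contra hcon
    push Not at hcon
    have hne : u ≠ u' := by
      rintro rfl
      exact lt_irrefl _ h1
    have hlt : m u' (V u) < m u (V u) := lt_of_le_of_ne hcon (fun e => hne (h.col _ _ _ e).symm)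
    have h3 := key_imp h.neg (Fintype.card β - (b + 1)) V
      (fun w => by
        have := card_gt_const h b V hV w
        simpa using this) u u' (by simpa using hlt)
    simp only [neg_lt_neg_iff] at h3
    linarith

lemma mu_inj {m : α → β → ℝ} (h : Good m) (b : ℕ) (V : α → β)
    (hV : ∀ u, (univ.filter (fun v' => m u v' < m u (V u))).card = b) :
    Function.Injective (fun u => m u (V u)) := by
  intro u u' he
  by_contra hne
  simp only at he
  have h1 : ¬ m u (V u) < m u' (V u) := by
    rw [key h b V hV u u']
    exact fun h => h.ne he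
  have h2 : m u' (V u) < m u (V u) := by
    rcases lt_trichotomy (m u' (V u)) (m u (V u)) with h3 | h3 | h3
    · exact h3
    · exact absurd (h.col _ _ _ h3).symm hne
    · exact absurd h3 h1
  have h3 := key_imp h.neg (Fintype.card β - (b + 1)) V
      (fun w => by
        have := card_gt_const h b V hV w
        simpa using this) u u' (by simpa using h2)
  simp only [neg_lt_neg_iff] at h3
  linarith

lemma exists_V {m : α → β → ℝ} (h : Good m) (b : ℕ) (hb : b < Fintype.card β) :
    ∃ V : α → β, ∀ u, (univ.filter (fun v' => m u v' < m u (V u))).card = b := by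
  have : ∀ u, ∃ v, (univ.filter (fun v' => m u v' < m u v)).card = b := fun u =>
    exists_rank (m u) (fun v v' e => h.row u v v' e) b hb
  choose V hV using this
  exact ⟨V, hV⟩

lemma rank_unique {m : α → β → ℝ} (h : Good m) (u : α) (v v' : β)
    (e : (univ.filter (fun w => m u w < m u v)).card =
      (univ.filter (fun w => m u w < m u v')).card) : v = v' := by
  classical
  by_contra hne
  have hne' : m u v ≠ m u v' := fun h' => hne (h.row _ _ _ h')
  have hmono : ∀ v w, m u v < m u w →
      (univ.filter (fun v' => m u v' < m u v)).card <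
        (univ.filter (fun v' => m u v' < m u w)).card := by
    intro v w h
    apply card_lt_card
    rw [ssubset_iff_of_subset]
    · exact ⟨v, by simpa using h, by simp⟩
    · intro z hz
      simp only [mem_filter, mem_univ, true_and] at hz ⊢
      exact hz.trans h
  rcases lt_or_gt_of_ne hne' with h2 | h2
  · exact absurd e (hmono _ _ h2).ne
  · exact absurd e (hmono _ _ h2).ne'

lemma exists_pair {m : α → β → ℝ} (h : Good m) (a b : ℕ) (ha : a < Fintype.card α)
    (hb : b < Fintype.card β) :
    ∃ u v, (univ.filter (fun u' => m u v < m u' v)).card = a ∧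
      (univ.filter (fun v' => m u v' < m u v)).card = b := by
  classical
  obtain ⟨V, hV⟩ := exists_V h b hb
  obtain ⟨u, hu⟩ := exists_rank (fun u => - m u (V u))
    (fun x y e => mu_inj h b V hV (by simpa using e)) a ha
  refine ⟨u, V u, ?_, hV u⟩
  rw [← hu]
  congr 1
  ext w
  simp only [mem_filter, mem_univ, true_and, neg_lt_neg_iff]
  exact key h b V hV u w

lemma nested_A {m : α → β → ℝ} (h : Good m) {u u₂ : α} {v v₂ : β}
    (hB : (univ.filter (fun v' => m u v' < m u v)).card =
      (univ.filter (fun v' => m u₂ v' < m u₂ v₂)).card)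
    (hA : (univ.filter (fun u' => m u v < m u' v)).card ≤
      (univ.filter (fun u' => m u₂ v₂ < m u' v₂)).card) (w : α) (hw : m u v < m w v) :
    m u₂ v₂ < m w v₂ := by
  classical
  set b := (univ.filter (fun v' => m u v' < m u v)).card with hbdef
  have hb : b < Fintype.card β := by
    rw [hbdef]
    apply card_lt_univ_of_notMem (x := v)
    simp
  obtain ⟨V, hV⟩ := exists_V h b hb
  have e1 : V u = v := rank_unique h u _ _ (hV u)
  have e2 : V u₂ = v₂ := rank_unique h u₂ _ _ ((hV u₂).trans hB)
  subst e1
  subst e2
  have k1 := key h b V hV u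
  have k2 := key h b V hV u₂
  rw [k2]
  have hw' := (k1 w).1 hw
  by_contra hcon
  push Not at hcon
  have hlt : m u (V u) < m u₂ (V u₂) := lt_of_lt_of_le hw' hcon
  have : (univ.filter (fun u' => m u₂ (V u₂) < m u' (V u₂))).card <
      (univ.filter (fun u' => m u (V u) < m u' (V u))).card := by
    apply card_lt_card
    rw [ssubset_iff_of_subset]
    · refine ⟨u₂, ?_, by simp⟩
      simp only [mem_filter, mem_univ, true_and]
      exact (k1 u₂).2 hlt
    · intro z hz
      simp only [mem_filter, mem_univ, true_and] at hz ⊢
      rw [k1]
      rw [k2] at hz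
      exact hlt.trans hz
  omega

lemma nested_B {m : α → β → ℝ} (h : Good m) {u u₂ : α} {v v₂ : β}
    (hA : (univ.filter (fun u' => m u v < m u' v)).card =
      (univ.filter (fun u' => m u₂ v₂ < m u' v₂)).card)
    (hB : (univ.filter (fun v' => m u v' < m u v)).card ≤
      (univ.filter (fun v' => m u₂ v' < m u₂ v₂)).card) (w : β) (hw : m u w < m u v) :
    m u₂ w < m u₂ v₂ := by
  have := nested_A (m := fun v u => - m u v) h.transNeg (u := v) (u₂ := v₂) (v := u) (v₂ := u₂)
    (by simpa using hA) (by simpa using hB) w (by simpa using hw)
  simpa using this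

end Matrix

end Pool.Agent.W140.GG
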