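import Pool.Agent.W140.GG.Plane

namespace Pool.Agent.W140.GG

open Finset

/-- arcs of the circulant construction: starting point and length -/
def arcs (n t q : ℕ) : Finset (ℕ × ℕ) :=
  ((range n) ×ˢ (Icc 1 (t + 1))).filter (fun p => p.2 = t + 1 → p.1 % (t + 1) < q)

lemma mem_arcs {n t q : ℕ} {p : ℕ × ℕ} : p ∈ arcs n t q ↔
    p.1 < n ∧ 1 ≤ p.2 ∧ p.2 ≤ t + 1 ∧ (p.2 = t + 1 → p.1 % (t + 1) < q) := by
  unfold arcs
  rw [mem_filter, mem_product, mem_range, mem_Icc]
  tauto

/-- the arc `p` passes over the gap before `g` -/
def covers (n g : ℕ) (p : ℕ × ℕ) : Prop :=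
  (p.1 < g ∧ g ≤ p.1 + p.2) ∨ (g + n ≤ p.1 + p.2)

instance (n g : ℕ) (p : ℕ × ℕ) : Decidable (covers n g p) := by
  unfold covers; infer_instance

lemma card_covers (n t q g : ℕ) (hn : t + 1 < n) (hg : g ≤ n)
    (hQ : q = t + 1 ∨ (t + 1) ∣ n) :
    2 * ((arcs n t q).filter (covers n g)).card ≤ t * (t + 1) + 2 * q := by
  classical
  have hsplit : (arcs n t q).filter (covers n g) ⊆
      ((arcs n t q).filter (fun p => covers n g p ∧ p.2 ≤ t)) ∪
      ((arcs n t q).filter (fun p => covers n g p ∧ p.2 = t + 1)) := by
    intro p hp
    rw [mem_filter] at hp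
    rw [mem_union, mem_filter, mem_filter]
    have := mem_arcs.1 hp.1
    rcases Nat.lt_or_ge p.2 (t + 1) with h | h
    · left
      exact ⟨hp.1, hp.2, by omega⟩
    · right
      exact ⟨hp.1, hp.2, by omega⟩
  have h1 : ((arcs n t q).filter (fun p => covers n g p ∧ p.2 ≤ t)).card ≤
      ((range (t + 1)).sigma (fun j => range j)).card := by
    apply card_le_card_of_injOn
      (fun p => (⟨p.2, (if p.1 < g then g - p.1 else g + n - p.1) - 1⟩ : (_ : ℕ) × ℕ))
    · intro p hp
      simp only [coe_filter, Set.mem_setOf_eq] at hp
      have h := mem_arcs.1 hp.1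
      have hc := hp.2.1
      unfold covers at hc
      simp only [coe_sigma, Set.mem_sigma_iff, coe_range, Set.mem_Iio]
      refine ⟨by omega, ?_⟩
      split_ifs with hlt
      · omega
      · omega
    · intro p hp p' hp' he
      simp only [coe_filter, Set.mem_setOf_eq] at hp hp'
      have h := mem_arcs.1 hp.1
      have h' := mem_arcs.1 hp'.1
      have hc := hp.2.1
      have hc' := hp'.2.1
      unfold covers at hc hc'
      simp only [Sigma.mk.injEq, heq_eq_eq] at he
      obtain ⟨he1, he2⟩ := he
      apply Prod.ext _ he1
      split_ifs at he2 <;> omega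
  have h2 : ((arcs n t q).filter (fun p => covers n g p ∧ p.2 = t + 1)).card ≤ q := by
    rcases hQ with hQ | hQ
    · have : ((arcs n t q).filter (fun p => covers n g p ∧ p.2 = t + 1)).card ≤
          (range (t + 1)).card := by
        apply card_le_card_of_injOn (fun p => (if p.1 < g then g - p.1 else g + n - p.1) - 1)
        · intro p hp
          simp only [coe_filter, Set.mem_setOf_eq] at hp
          have h := mem_arcs.1 hp.1
          have hc := hp.2.1
          unfold covers at hc
          simp only [coe_range, Set.mem_Iio]
          split_ifs with hlt <;> omega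
        · intro p hp p' hp' he
          simp only [coe_filter, Set.mem_setOf_eq] at hp hp'
          have h := mem_arcs.1 hp.1
          have h' := mem_arcs.1 hp'.1
          have hc := hp.2.1
          have hc' := hp'.2.1
          unfold covers at hc hc'
          simp only at he
          have e1 : p.2 = p'.2 := by omega
          apply Prod.ext _ e1
          split_ifs at he <;> omega
      rw [card_range] at this
      omega
    · have : ((arcs n t q).filter (fun p => covers n g p ∧ p.2 = t + 1)).card ≤
          (range q).card := by
        apply card_le_card_of_injOn (fun p => p.1 % (t + 1))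
        · intro p hp
          simp only [coe_filter, Set.mem_setOf_eq] at hp
          have h := mem_arcs.1 hp.1
          simp only [coe_range, Set.mem_Iio]
          exact h.2.2.2 hp.2.2
        · intro p hp p' hp' he
          simp only [coe_filter, Set.mem_setOf_eq] at hp hp'
          have h := mem_arcs.1 hp.1
          have h' := mem_arcs.1 hp'.1
          have hc := hp.2.1
          have hc' := hp'.2.1
          unfold covers at hc hc'
          simp only at he
          have e1 : p.2 = p'.2 := by omega
          apply Prod.ext _ e1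
          -- distances
          have key : ∀ d d' : ℕ, 1 ≤ d → d ≤ t + 1 → 1 ≤ d' → d' ≤ t + 1 →
              ((t + 1 : ℕ) : ℤ) ∣ ((d : ℤ) - d') → d = d' := by
            intro d d' a1 a2 a3 a4 hd
            have : ((d : ℤ) - d').natAbs < t + 1 := by omega
            have h0 : (d : ℤ) - d' = 0 := Int.eq_zero_of_abs_lt_dvd hd (by
              rw [Int.abs_eq_natAbs]; exact_mod_cast this)
            omega
          obtain ⟨K, hK⟩ := hQ
          have hmod : ((t + 1 : ℕ) : ℤ) ∣ ((p.1 : ℤ) - p'.1) := by
            have := (Nat.modEq_iff_dvd (n := t + 1) (a := p'.1) (b := p.1)).1 he.symm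
            exact_mod_cast this
          have hnd : ((t + 1 : ℕ) : ℤ) ∣ (n : ℤ) := ⟨K, by rw [hK]; push_cast; ring⟩
          rcases hc with hc | hc <;> rcases hc' with hc' | hc'
          · have := key (g - p.1) (g - p'.1) (by omega) (by omega) (by omega) (by omega) (by
              have e : (((g - p.1 : ℕ) : ℤ) - ((g - p'.1 : ℕ) : ℤ)) = -((p.1 : ℤ) - p'.1) := by
                omega
              rw [e]
              exact (dvd_neg).2 hmod)
            omega
          · have := key (g - p.1) (g + n - p'.1) (by omega) (by omega) (by omega) (by omega) (by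
              have e : (((g - p.1 : ℕ) : ℤ) - ((g + n - p'.1 : ℕ) : ℤ)) =
                  -((p.1 : ℤ) - p'.1) - n := by
                omega
              rw [e]
              exact dvd_sub ((dvd_neg).2 hmod) hnd)
            omega
          · have := key (g + n - p.1) (g - p'.1) (by omega) (by omega) (by omega) (by omega) (by
              have e : (((g + n - p.1 : ℕ) : ℤ) - ((g - p'.1 : ℕ) : ℤ)) =
                  -((p.1 : ℤ) - p'.1) + n := by
                omega
              rw [e]
              exact dvd_add ((dvd_neg).2 hmod) hnd)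
            omega
          · have := key (g + n - p.1) (g + n - p'.1) (by omega) (by omega) (by omega)
              (by omega) (by
              have e : (((g + n - p.1 : ℕ) : ℤ) - ((g + n - p'.1 : ℕ) : ℤ)) =
                  -((p.1 : ℤ) - p'.1) := by
                omega
              rw [e]
              exact (dvd_neg).2 hmod)
            omega
      rwa [card_range] at this
  have h3 : 2 * ((range (t + 1)).sigma (fun j => range j)).card = t * (t + 1) := by
    rw [card_sigma]
    simp only [card_range]
    have := Finset.sum_range_id_mul_two (t + 1)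
    rw [Nat.add_sub_cancel] at this
    linarith
  have h4 := card_le_card hsplit
  have h5 := card_union_le ((arcs n t q).filter (fun p => covers n g p ∧ p.2 ≤ t))
      ((arcs n t q).filter (fun p => covers n g p ∧ p.2 = t + 1))
  omega

/-- separated arcs -/
lemma card_sep (n t q p r : ℕ) (hn : t + 1 < n) (hpr : p ≤ r) (hr : r ≤ n)
    (hQ : q = t + 1 ∨ (t + 1) ∣ n) :
    ((arcs n t q).filter (fun z => ¬ ((p ≤ z.1 ∧ z.1 < r) ↔
      (p ≤ (z.1 + z.2) % n ∧ (z.1 + z.2) % n < r)))).card ≤ t * (t + 1) + 2 * q := by
  classical
  have hsub : (arcs n t q).filter (fun z => ¬ ((p ≤ z.1 ∧ z.1 < r) ↔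
      (p ≤ (z.1 + z.2) % n ∧ (z.1 + z.2) % n < r))) ⊆
      (arcs n t q).filter (covers n p) ∪ (arcs n t q).filter (covers n r) := by
    intro z hz
    rw [mem_filter] at hz
    have h := mem_arcs.1 hz.1
    rw [mem_union, mem_filter, mem_filter]
    by_contra hcon
    apply hz.2
    have c1 : ¬ covers n p z := fun h => hcon (Or.inl ⟨hz.1, h⟩)
    have c2 : ¬ covers n r z := fun h => hcon (Or.inr ⟨hz.1, h⟩)
    unfold covers at c1 c2
    rcases Nat.lt_or_ge (z.1 + z.2) n with hlt | hge
    · rw [Nat.mod_eq_of_lt hlt]
      constructor <;> intro h' <;> omega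
    · have : (z.1 + z.2) % n = z.1 + z.2 - n := by
        rw [Nat.mod_eq_sub_mod hge, Nat.mod_eq_of_lt (by omega)]
      rw [this]
      constructor <;> intro h' <;> omega
  have h1 := card_covers n t q p hn (by omega) hQ
  have h2 := card_covers n t q r hn hr hQ
  have h3 := card_le_card hsub
  have h4 := card_union_le ((arcs n t q).filter (covers n p)) ((arcs n t q).filter (covers n r))
  omega

lemma card_arcs (n t q : ℕ) :
    (arcs n t q).card = n * t + ((range n).filter (fun i => i % (t + 1) < q)).card := by
  classical
  have h1 : arcs n t q = ((range n) ×ˢ (Icc 1 t)) ∪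
      (((range n).filter (fun i => i % (t + 1) < q)) ×ˢ {t + 1}) := by
    ext p
    rw [mem_arcs, mem_union, mem_product, mem_product, mem_filter, mem_range, mem_Icc,
      mem_singleton]
    constructor
    · rintro ⟨a, b, c, d⟩
      rcases Nat.lt_or_ge p.2 (t + 1) with h | h
      · exact Or.inl ⟨a, b, by omega⟩
      · have : p.2 = t + 1 := by omega
        exact Or.inr ⟨⟨a, d this⟩, this⟩
    · rintro (⟨a, b, c⟩ | ⟨⟨a, b⟩, c⟩)
      · exact ⟨a, b, by omega, fun h => by omega⟩
      · exact ⟨a, by omega, by omega, fun _ => b⟩
  rw [h1, card_union_of_disjoint, card_product, card_product, card_range, Nat.card_Icc,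
    card_singleton]
  · simp
  · rw [Finset.disjoint_left]
    intro p hp hp'
    rw [mem_product, mem_Icc] at hp
    rw [mem_product, mem_singleton] at hp'
    omega

lemma card_mod (t q K : ℕ) (hq : q ≤ t + 1) :
    ((range (K * (t + 1))).filter (fun i => i % (t + 1) < q)).card = K * q := by
  induction K with
  | zero => simp
  | succ K ih =>
    rw [card_filter] at ih ⊢
    rw [Nat.succ_mul, sum_range_add, ih]
    have : ∀ x ∈ range (t + 1), (if (K * (t + 1) + x) % (t + 1) < q then 1 else 0) =
        if x < q then 1 else 0 := by
      intro x hx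
      rw [mem_range] at hx
      have : (K * (t + 1) + x) % (t + 1) = x := by
        rw [mul_comm, Nat.mul_add_mod, Nat.mod_eq_of_lt hx]
      rw [this]
    rw [sum_congr rfl this, ← card_filter]
    have : (range (t + 1)).filter (fun x => x < q) = range q := by
      ext x
      simp only [mem_filter, mem_range]
      omega
    rw [this, card_range]
    ring

end Pool.Agent.W140.GG
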