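import Pool.Agent.W140.GG.Block

namespace Pool.Agent.W140.GG

open Finset

variable {V : Type*} [DecidableEq V]

/-- one dimensional lemma: if all the cuts of a linear order of `X` have at most `c` edges then
`X` spans few edges. -/
lemma one_dim (G : SimpleGraph V) (X : Finset V) (g : V → ℝ)
    (hg : Set.InjOn g X) (c t : ℕ)
    (hc : ∀ u ∈ X, E2 G (X.filter (fun w => g w < g u)) (X \ X.filter (fun w => g w < g u)) ≤ c) :
    (t + 1) * E2 G X X ≤ (2 * c + t * (t + 1)) * X.card := by
  classical
  set rk : V → ℕ := fun u => (X.filter (fun w => g w < g u)).card with hrk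
  set A : ℕ → Finset V := fun i => X.filter (fun u => rk u < i * (t + 1)) with hA
  -- rank is strictly monotone
  have hlt : ∀ u ∈ X, ∀ w ∈ X, g u < g w → rk u < rk w := by
    intro u hu w hw h
    apply card_lt_card
    rw [ssubset_iff_of_subset]
    · exact ⟨u, by simp [hu, h], by simp⟩
    · intro z hz
      rw [mem_filter] at hz ⊢
      exact ⟨hz.1, hz.2.trans h⟩
  have hinj : Set.InjOn rk X := by
    intro u hu w hw h
    by_contra hne
    have hne' : g u ≠ g w := fun h' => hne (hg hu hw h')
    rcases lt_or_gt_of_ne hne' with h2 | h2
    · exact absurd h (hlt u hu w hw h2).ne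
    · exact absurd h (hlt w hw u hu h2).ne'
  have hltc : ∀ u ∈ X, rk u < X.card := by
    intro u hu
    apply card_lt_card
    rw [ssubset_iff_of_subset (filter_subset _ _)]
    exact ⟨u, hu, by simp⟩
  have himg : X.image rk = range X.card := by
    apply eq_of_subset_of_card_le
    · intro z hz
      rw [mem_image] at hz
      obtain ⟨u, hu, rfl⟩ := hz
      exact mem_range.2 (hltc u hu)
    · rw [card_image_of_injOn hinj, card_range]
  have hcardA : ∀ i, (A i).card = min (i * (t + 1)) X.card := by
    intro i
    have : (A i).card = ((range X.card).filter (fun z => z < i * (t + 1))).card := by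
      rw [← himg, filter_image]
      rw [card_image_of_injOn]
      · intro u hu w hw h
        rw [mem_coe, mem_filter] at hu hw
        exact hinj hu.1 hw.1 h
    rw [this]
    have : (range X.card).filter (fun z => z < i * (t + 1)) = range (min (i * (t + 1)) X.card) := by
      ext z
      simp only [mem_filter, mem_range, lt_min_iff]
      tauto
    rw [this, card_range]
  have hA0 : A 0 = ∅ := by simp [hA]
  have hmono : Monotone A := by
    intro i j hij u hu
    simp only [hA, mem_filter] at hu ⊢
    exact ⟨hu.1, lt_of_lt_of_le hu.2 (Nat.mul_le_mul_right _ hij)⟩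
  have hU : ∀ i, A i ⊆ X := fun i => filter_subset _ _
  have hAX : A X.card = X := by
    apply eq_of_subset_of_card_le (hU _)
    rw [hcardA]
    apply le_min _ (le_refl _)
    nlinarith
  have key := chain_le G X A hA0 hmono hU X.card
  rw [hAX] at key
  -- the first sum
  have hstep : ∀ i, (A (i + 1)).card - (A i).card ≤ t + 1 := by
    intro i
    rw [hcardA, hcardA]
    have : (i + 1) * (t + 1) = i * (t + 1) + (t + 1) := by ring
    rw [this]
    omega
  have hs1 : ∑ i ∈ range X.card, ((A (i + 1)).card - (A i).card) *
      ((A (i + 1)).card - (A i).card - 1) ≤ X.card * t := by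
    calc ∑ i ∈ range X.card, ((A (i + 1)).card - (A i).card) *
          ((A (i + 1)).card - (A i).card - 1)
        ≤ ∑ i ∈ range X.card, ((A (i + 1)).card - (A i).card) * t := by
          apply sum_le_sum
          intro i _
          apply Nat.mul_le_mul_left
          have := hstep i
          omega
      _ = (∑ i ∈ range X.card, ((A (i + 1)).card - (A i).card)) * t := by rw [sum_mul]
      _ = X.card * t := by
          congr 1
          have : ∀ m, ∑ i ∈ range m, ((A (i + 1)).card - (A i).card) = (A m).card := by
            intro m
            induction m with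
            | zero => simp [hA0]
            | succ m ih =>
              rw [sum_range_succ, ih]
              have := card_le_card (hmono (Nat.le_succ m))
              simp only [Nat.succ_eq_add_one] at this
              omega
          rw [this, hAX]
  -- the second sum
  have hcut : ∀ i, E2 G (A i) (X \ A i) ≤ c := by
    intro i
    by_cases hi : i * (t + 1) < X.card
    · have : i * (t + 1) ∈ X.image rk := by rw [himg]; exact mem_range.2 hi
      rw [mem_image] at this
      obtain ⟨u, hu, hui⟩ := this
      have e : A i = X.filter (fun w => g w < g u) := by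
        apply filter_congr
        intro w hw
        rw [← hui]
        constructor
        · intro h
          by_contra hcon
          push Not at hcon
          rcases hcon.lt_or_eq with h1 | h1
          · have := hlt u hu w hw h1
            omega
          · have := hg hu hw h1
            rw [this] at h
            exact lt_irrefl _ h
        · exact hlt w hw u hu
      rw [e]
      exact hc u hu
    · have : A i = X := by
        apply eq_of_subset_of_card_le (hU i)
        rw [hcardA]
        apply le_min _ (le_refl _)
        omega
      rw [this, sdiff_self, E2_comm]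
      simp [E2_empty_left]
  have hs2 : (t + 1) * ∑ i ∈ range X.card, E2 G (A i) (X \ A i) ≤ c * X.card := by
    -- only the indices `1 ≤ i`, `i (t+1) < |X|` contribute
    have h1 : ∑ i ∈ range X.card, E2 G (A i) (X \ A i) ≤
        ∑ i ∈ range X.card, (if 1 ≤ i ∧ i * (t + 1) < X.card then c else 0) := by
      apply sum_le_sum
      intro i _
      split_ifs with h
      · exact hcut i
      · by_cases hi : 1 ≤ i
        · have hle : X.card ≤ i * (t + 1) := by
            by_contra hcon
            exact h ⟨hi, by omega⟩
          have : A i = X := by
            apply eq_of_subset_of_card_le (hU i)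
            rw [hcardA]
            exact le_min hle (le_refl _)
          rw [this, sdiff_self, E2_comm]
          simp [E2_empty_left]
        · have : i = 0 := by omega
          rw [this, hA0, E2_empty_left]
    rw [← sum_filter, sum_const, smul_eq_mul] at h1
    have h2 : ((range X.card).filter (fun i => 1 ≤ i ∧ i * (t + 1) < X.card)).card * (t + 1) ≤
        X.card := by
      have : (range X.card).filter (fun i => 1 ≤ i ∧ i * (t + 1) < X.card) ⊆
          Icc 1 ((X.card - 1) / (t + 1)) := by
        intro i hi
        rw [mem_filter] at hi
        rw [mem_Icc]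
        refine ⟨hi.2.1, ?_⟩
        rw [Nat.le_div_iff_mul_le (by omega : 0 < t + 1)]
        omega
      have h3 := card_le_card this
      rw [Nat.card_Icc, Nat.add_sub_cancel] at h3
      have h4 := Nat.div_mul_le_self (X.card - 1) (t + 1)
      have h5 := Nat.mul_le_mul_right (t + 1) h3
      omega
    calc (t + 1) * ∑ i ∈ range X.card, E2 G (A i) (X \ A i)
        ≤ (t + 1) * (((range X.card).filter
            (fun i => 1 ≤ i ∧ i * (t + 1) < X.card)).card * c) := Nat.mul_le_mul_left _ h1
      _ = (((range X.card).filter
            (fun i => 1 ≤ i ∧ i * (t + 1) < X.card)).card * (t + 1)) * c := by ring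
      _ ≤ X.card * c := Nat.mul_le_mul_right _ h2
      _ = c * X.card := by ring
  calc (t + 1) * E2 G X X ≤ (t + 1) * ((∑ i ∈ range X.card, ((A (i + 1)).card - (A i).card) *
      ((A (i + 1)).card - (A i).card - 1)) + 2 * ∑ i ∈ range X.card, E2 G (A i) (X \ A i)) :=
        Nat.mul_le_mul_left _ key
    _ ≤ (t + 1) * (X.card * t) + 2 * (c * X.card) := by nlinarith
    _ = (2 * c + t * (t + 1)) * X.card := by ring

end Pool.Agent.W140.GG
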