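import Pool.Agent.W140.GG.Block

namespace Pool.Agent.W140.GG

open Finset

/-- a good direction -/
lemma exists_dir {n : ℕ} (P : Fin n → ℝ × ℝ) (hP : Function.Injective P) :
    ∃ ε : ℝ, Function.Injective (fun i => (P i).1 + ε * (P i).2) := by
  classical
  let bad : Finset ℝ := (univ : Finset (Fin n × Fin n)).image
    (fun p => - ((P p.1).1 - (P p.2).1) / ((P p.1).2 - (P p.2).2))
  obtain ⟨ε, hε⟩ := Infinite.exists_notMem_finset bad
  refine ⟨ε, ?_⟩
  intro i j hij
  by_contra hne
  simp only at hij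
  by_cases h2 : (P i).2 = (P j).2
  · have h1 : (P i).1 = (P j).1 := by
      rw [h2] at hij
      linarith
    exact hne (hP (Prod.ext h1 h2))
  · apply hε
    rw [mem_image]
    refine ⟨(i, j), mem_univ _, ?_⟩
    have : (P i).2 - (P j).2 ≠ 0 := sub_ne_zero.2 h2
    rw [div_eq_iff this]
    linarith

lemma collinear_of_det {p q r : ℝ × ℝ} (hpq : p ≠ q)
    (h : (q.1 - p.1) * (r.2 - p.2) - (r.1 - p.1) * (q.2 - p.2) = 0) :
    Collinear ℝ ({p, q, r} : Set (ℝ × ℝ)) := by
  rw [collinear_iff_of_mem (p₀ := p) (by simp)]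
  refine ⟨q - p, ?_⟩
  intro z hz
  simp only [Set.mem_insert_iff, Set.mem_singleton_iff] at hz
  rcases hz with rfl | rfl | rfl
  · exact ⟨0, by simp⟩
  · exact ⟨1, by simp⟩
  · by_cases h1 : q.1 - p.1 = 0
    · have h2 : q.2 - p.2 ≠ 0 := by
        intro h2
        apply hpq
        exact Prod.ext (by linarith) (by linarith)
      refine ⟨(z.2 - p.2) / (q.2 - p.2), ?_⟩
      have h3 : z.1 - p.1 = 0 := by
        rw [h1] at h
        simp only [zero_mul, zero_sub, neg_eq_zero, mul_eq_zero] at h
        rcases h with h | h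
        · exact h
        · exact absurd h h2
      apply Prod.ext
      · simp [h1]
        linarith
      · simp
        field_simp
        ring
    · refine ⟨(z.1 - p.1) / (q.1 - p.1), ?_⟩
      apply Prod.ext
      · simp
        field_simp
        ring
      · simp
        field_simp
        linarith

lemma GenPos.nc {n : ℕ} {P : Fin n → ℝ × ℝ} (hP : GenPos P) (ε : ℝ) :
    NC (fun i => (P i).1 + ε * (P i).2) (fun i => (P i).2) := by
  intro i j k hij hjk hik h
  apply hP.2 i j k hij hjk hik
  apply collinear_of_det (fun h => hij (hP.1 h))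
  simp only at h
  linarith

/-- crossing edges are met -/
lemma E2_le_meets {n : ℕ} (P : Fin n → ℝ × ℝ) (G : SimpleGraph (Fin n)) (S : Finset (Fin n))
    (a b c : ℝ) (h1 : ∀ i ∈ S, a * (P i).1 + b * (P i).2 < c)
    (h2 : ∀ i ∉ S, c < a * (P i).1 + b * (P i).2) :
    E2 G S Sᶜ ≤ {x ∈ G.edgeSet | Meets P a b c x}.ncard := by
  classical
  unfold E2
  rw [Set.ncard_eq_toFinset_card']
  apply card_le_card_of_injOn (fun p => s(p.1, p.2))
  · intro p hp
    simp only [coe_filter, mem_product, mem_compl, Set.mem_setOf_eq] at hp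
    simp only [Set.coe_toFinset, Set.mem_setOf_eq, SimpleGraph.mem_edgeSet]
    refine ⟨hp.2, p.1, p.2, rfl, ?_⟩
    have g1 := h1 _ hp.1.1
    have g2 := h2 _ hp.1.2
    set u := a * (P p.1).1 + b * (P p.1).2 with hu
    set v := a * (P p.2).1 + b * (P p.2).2 with hv
    refine ⟨((v - c) / (v - u)) • P p.1 + ((c - u) / (v - u)) • P p.2, ?_, ?_⟩
    · refine ⟨(v - c) / (v - u), (c - u) / (v - u), ?_, ?_, ?_, rfl⟩
      · apply div_pos <;> linarith
      · apply div_pos <;> linarith
      · rw [← add_div, div_eq_one_iff_eq] <;> linarith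
    · have hne : v - u ≠ 0 := by linarith
      simp only [Prod.fst_add, Prod.smul_fst, smul_eq_mul, Prod.snd_add, Prod.smul_snd]
      have : a * ((v - c) / (v - u) * (P p.1).1 + (c - u) / (v - u) * (P p.2).1) +
          b * ((v - c) / (v - u) * (P p.1).2 + (c - u) / (v - u) * (P p.2).2) =
          (v - c) / (v - u) * u + (c - u) / (v - u) * v := by
        rw [hu, hv]; ring
      rw [this]
      field_simp
      ring
  · intro p hp q hq he
    simp only [coe_filter, mem_product, mem_compl, Set.mem_setOf_eq] at hp hq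
    simp only [Sym2.eq_iff] at he
    rcases he with h | h
    · exact Prod.ext h.1 h.2
    · exfalso
      apply hq.1.2
      rw [← h.1]
      exact hp.1.1

/-- the coordinates form of the cut bound -/
lemma cut_bound {n : ℕ} (P : Fin n → ℝ × ℝ) (G : SimpleGraph (Fin n)) (k : ℕ)
    (hk : ∀ a b c : ℝ, (a ≠ 0 ∨ b ≠ 0) → {x ∈ G.edgeSet | Meets P a b c x}.ncard < k + 1)
    (ε : ℝ) (S : Finset (Fin n))
    (hS : Sep2 (fun i => (P i).1 + ε * (P i).2) (fun i => (P i).2) S) :
    E2 G S Sᶜ ≤ k := by
  classical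
  obtain ⟨a, b, c, h1, h2⟩ := hS
  by_cases h0 : a ≠ 0 ∨ a * ε + b ≠ 0
  · have h := E2_le_meets P G S a (a * ε + b) c
      (fun i hi => by have := h1 i hi; simp only at this; linarith)
      (fun i hi => by have := h2 i hi; simp only at this; linarith)
    have := hk a (a * ε + b) c h0
    omega
  · push Not at h0
    have hb : b = 0 := by
      have := h0.2
      rw [h0.1] at this
      linarith
    have ha := h0.1
    have : S = ∅ ∨ Sᶜ = ∅ := by
      rcases lt_or_ge 0 c with hc | hc
      · right
        rw [eq_empty_iff_forall_notMem]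
        intro i hi
        have := h2 i (mem_compl.1 hi)
        rw [ha, hb] at this
        linarith
      · left
        rw [eq_empty_iff_forall_notMem]
        intro i hi
        have := h1 i hi
        rw [ha, hb] at this
        linarith
    rcases this with h | h
    · rw [h, E2_empty_left]; omega
    · rw [h, E2_comm, E2_empty_left]; omega

/-- The block bound in the plane. -/
theorem plane_block {n : ℕ} (P : Fin n → ℝ × ℝ) (hP : GenPos P) (G : SimpleGraph (Fin n))
    (M : ℕ)
    (hk : ∀ a b c : ℝ, (a ≠ 0 ∨ b ≠ 0) → {x ∈ G.edgeSet | Meets P a b c x}.ncard < M + 1)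
    (m : ℕ) (hm : 1 ≤ m)
    (α β : ℕ → ℕ) (hα0 : α 0 = 0) (hβ0 : β 0 = 0) (hn : α m + β m = n)
    (hα : ∀ i, i < m → α i < α (i + 1)) (hβ : ∀ i, i < m → β i < β (i + 1)) :
    2 * G.edgeSet.ncard ≤ 2 * m * M +
      (∑ i ∈ range m, (α (i + 1) - α i) * (α (i + 1) - α i - 1)) +
      ∑ i ∈ range m, (β (i + 1) - β i) * (β (i + 1) - β i - 1) := by
  classical
  obtain ⟨ε, hε⟩ := exists_dir P hP.1
  have hβpos : 0 < β m := by
    have := hβ (m - 1) (by omega)
    have h : m - 1 + 1 = m := by omega
    rw [h] at this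
    omega
  obtain ⟨v, hv⟩ := exists_rank _ hε (α m) (by rw [Fintype.card_fin]; omega)
  set x : Fin n → ℝ := fun i => (P i).1 + ε * (P i).2 with hx
  set L : Finset (Fin n) := univ.filter (fun i => x i < x v) with hL
  have hLc : L.card = α m := hv
  apply block_bound x (fun i => (P i).2) (hP.nc ε) G M
    (fun S hS => cut_bound P G M hk ε S hS) L Lᶜ disjoint_compl_right (union_compl L) ?_ m hm
    α β hα0 hLc.symm hα hβ0 ?_ hβ
  · intro i hi j hj
    rw [mem_compl, hL, mem_filter] at hj
    rw [hL, mem_filter] at hi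
    have : x v ≤ x j := by
      by_contra h
      push Not at h
      exact hj ⟨mem_univ _, h⟩
    exact hi.2.trans_le this
  · rw [card_compl, hLc, Fintype.card_fin]
    omega

end Pool.Agent.W140.GG
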