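import Pool.Agent.W140.GG.Two
import Pool.Agent.W140.GG.Plane

namespace Pool.Agent.W140.GG

open Finset

variable {ι : Type*} [Fintype ι] [DecidableEq ι]

/-- cell of `v` in the partition generated by the sets of `𝓡` -/
def cl (𝓡 : Finset (Finset ι)) (v : ι) : Finset ι :=
  univ.filter (fun w => ∀ R ∈ 𝓡, (w ∈ R ↔ v ∈ R))

lemma mem_cl {𝓡 : Finset (Finset ι)} {v w : ι} :
    w ∈ cl 𝓡 v ↔ ∀ R ∈ 𝓡, (w ∈ R ↔ v ∈ R) := by
  simp [cl]

lemma self_mem_cl (𝓡 : Finset (Finset ι)) (v : ι) : v ∈ cl 𝓡 v := by
  simp [mem_cl]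

lemma cl_eq_of_mem {𝓡 : Finset (Finset ι)} {v w : ι} (h : w ∈ cl 𝓡 v) : cl 𝓡 w = cl 𝓡 v := by
  rw [mem_cl] at h
  ext z
  rw [mem_cl, mem_cl]
  constructor
  · intro hz R hR
    rw [hz R hR, h R hR]
  · intro hz R hR
    rw [hz R hR, h R hR]

lemma mem_cl_iff {𝓡 : Finset (Finset ι)} {v w : ι} : w ∈ cl 𝓡 v ↔ cl 𝓡 w = cl 𝓡 v := by
  constructor
  · exact cl_eq_of_mem
  · intro h
    rw [← h]
    exact self_mem_cl _ _

lemma cl_anti {𝓡 𝓡' : Finset (Finset ι)} (h : 𝓡 ⊆ 𝓡') (v : ι) : cl 𝓡' v ⊆ cl 𝓡 v := by
  intro w hw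
  rw [mem_cl] at hw ⊢
  exact fun R hR => hw R (h hR)

/-- number of ordered pairs in a common cell -/
def Ph (𝓡 : Finset (Finset ι)) : ℕ :=
  ((univ : Finset (ι × ι)).filter (fun p => p.2 ∈ cl 𝓡 p.1)).card

/-- number of pairs in a common cell separated by `S` -/
def Xs (𝓡 : Finset (Finset ι)) (S : Finset ι) : ℕ :=
  ((univ : Finset (ι × ι)).filter (fun p => p.2 ∈ cl 𝓡 p.1 ∧ p.1 ∈ S ∧ p.2 ∉ S)).card

lemma Ph_insert (𝓡 : Finset (Finset ι)) (S : Finset ι) :
    Ph (insert S 𝓡) + Xs 𝓡 S ≤ Ph 𝓡 := by
  unfold Ph Xs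
  rw [← card_union_of_disjoint]
  · apply card_le_card
    intro p hp
    rw [mem_union, mem_filter, mem_filter] at hp
    rw [mem_filter]
    refine ⟨mem_univ _, ?_⟩
    rcases hp with hp | hp
    · exact cl_anti (subset_insert _ _) _ hp.2
    · exact hp.2.1
  · rw [Finset.disjoint_left]
    intro p hp hp'
    rw [mem_filter] at hp hp'
    have := (mem_cl.1 hp.2) S (mem_insert_self _ _)
    exact hp'.2.2.2 (this.2 hp'.2.2.1)

lemma greedy (Q : Finset ι → Prop) (D : ℕ) (hD : 1 ≤ D) :
    ∀ N : ℕ, ∀ 𝓡 : Finset (Finset ι), Ph 𝓡 ≤ N → (∀ R ∈ 𝓡, Q R) →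
    ∃ 𝓡' : Finset (Finset ι), 𝓡 ⊆ 𝓡' ∧ (∀ R ∈ 𝓡', Q R) ∧
      𝓡'.card * D + Ph 𝓡' ≤ 𝓡.card * D + Ph 𝓡 ∧ ∀ S, Q S → Xs 𝓡' S < D := by
  intro N
  induction N using Nat.strong_induction_on with
  | _ N ih =>
    intro 𝓡 hN hQ
    by_cases h : ∀ S, Q S → Xs 𝓡 S < D
    · exact ⟨𝓡, Subset.refl _, hQ, le_refl _, h⟩
    · push Not at h
      obtain ⟨S, hS, hX⟩ := h
      have h1 := Ph_insert 𝓡 S
      obtain ⟨𝓡', h2, h3, h4, h5⟩ := ih (Ph (insert S 𝓡)) (by omega) (insert S 𝓡) (le_refl _)
        (by
          intro R hR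
          rw [mem_insert] at hR
          rcases hR with rfl | hR
          · exact hS
          · exact hQ R hR)
      refine ⟨𝓡', (subset_insert _ _).trans h2, h3, ?_, h5⟩
      have h6 := card_insert_le S 𝓡
      have h7 : (insert S 𝓡).card * D ≤ (𝓡.card + 1) * D := Nat.mul_le_mul_right _ h6
      have h8 : (𝓡.card + 1) * D = 𝓡.card * D + D := by ring
      omega

lemma Ph_eq (𝓡 : Finset (Finset ι)) : Ph 𝓡 = ∑ v, (cl 𝓡 v).card := by
  classical
  unfold Ph
  rw [← univ_product_univ, card_filter, sum_product]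
  apply sum_congr rfl
  intro v _
  rw [← card_filter]
  congr 1
  ext w
  simp

/-- slabs -/
lemma slabs (x y : ι → ℝ) (hx : Function.Injective x) (s : ℕ) (hs : 1 ≤ s) :
    ∃ 𝓡 : Finset (Finset ι), (∀ R ∈ 𝓡, Sep2 x y R) ∧ 𝓡.card ≤ Fintype.card ι / s + 1 ∧
      ∀ v, (cl 𝓡 v).card ≤ s := by
  classical
  set rk : ι → ℕ := fun u => (univ.filter (fun w => x w < x u)).card with hrk
  have hlt : ∀ u w, x u < x w → rk u < rk w := by
    intro u w h
    apply card_lt_card
    rw [ssubset_iff_of_subset]
    · exact ⟨u, by simp [h], by simp⟩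
    · intro z hz
      rw [mem_filter] at hz ⊢
      exact ⟨hz.1, hz.2.trans h⟩
  have hinj : Function.Injective rk := by
    intro u w h
    by_contra hne
    have hne' : x u ≠ x w := fun h' => hne (hx h')
    rcases lt_or_gt_of_ne hne' with h2 | h2
    · exact absurd h (hlt u w h2).ne
    · exact absurd h (hlt w u h2).ne'
  have hltc : ∀ u, rk u < Fintype.card ι := by
    intro u
    apply card_lt_univ_of_notMem (x := u)
    simp
  refine ⟨(range (Fintype.card ι / s + 1)).image (fun i => univ.filter (fun j => rk j < i * s)),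
    ?_, ?_, ?_⟩
  · intro R hR
    rw [mem_image] at hR
    obtain ⟨i, _, rfl⟩ := hR
    by_cases hi : i * s < Fintype.card ι
    · obtain ⟨u, hu⟩ := exists_rank x hx (i * s) hi
      apply sep2_of_lt x y 1 0 (x u)
      · intro j hj
        rw [mem_filter] at hj
        by_contra hcon
        have h1 : x u ≤ x j := by linarith
        rcases h1.lt_or_eq with h2 | h2
        · have := hlt u j h2
          have hu' : rk u = i * s := hu
          omega
        · have := hx h2
          have hu' : rk u = i * s := hu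
          rw [← this] at hj
          omega
      · intro j hj
        rw [mem_filter] at hj
        by_contra hcon
        apply hj
        refine ⟨mem_univ _, ?_⟩
        have := hlt j u (by linarith)
        have hu' : rk u = i * s := hu
        omega
    · refine ⟨0, 0, 1, by simp, ?_⟩
      intro j hj
      exfalso
      apply hj
      rw [mem_filter]
      exact ⟨mem_univ _, by have := hltc j; omega⟩
  · exact card_image_le.trans (by rw [card_range])
  · intro v
    have : (cl ((range (Fintype.card ι / s + 1)).image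
        (fun i => univ.filter (fun j => rk j < i * s))) v).card ≤
        (Ico (rk v / s * s) ((rk v / s + 1) * s)).card := by
      apply card_le_card_of_injOn rk
      · intro w hw
        rw [mem_coe, mem_cl] at hw
        have hv1 : rk v / s * s ≤ rk v := Nat.div_mul_le_self _ _
        have hv2 : rk v < (rk v / s + 1) * s := by
          have := Nat.lt_div_mul_add (a := rk v) hs
          have e : (rk v / s + 1) * s = rk v / s * s + s := by ring
          omega
        have hle : rk v / s ≤ Fintype.card ι / s := Nat.div_le_div_right (hltc v).le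
        rw [mem_coe, mem_Ico]
        constructor
        · have := hw (univ.filter (fun j => rk j < rk v / s * s))
            (mem_image.2 ⟨rk v / s, mem_range.2 (by omega), rfl⟩)
          simp only [mem_filter, mem_univ, true_and] at this
          by_contra hcon
          have := this.1 (by omega)
          omega
        · by_cases h : rk v / s + 1 ≤ Fintype.card ι / s
          · have := hw (univ.filter (fun j => rk j < (rk v / s + 1) * s))
              (mem_image.2 ⟨rk v / s + 1, mem_range.2 (by omega), rfl⟩)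
            simp only [mem_filter, mem_univ, true_and] at this
            exact this.2 hv2
          · have h1 : rk v / s = Fintype.card ι / s := by omega
            rw [h1]
            have h2 := Nat.lt_div_mul_add (a := Fintype.card ι) hs
            have e : (Fintype.card ι / s + 1) * s = Fintype.card ι / s * s + s := by ring
            have := hltc w
            omega
      · exact hinj.injOn
    rw [Nat.card_Ico] at this
    have e : (rk v / s + 1) * s = rk v / s * s + s := by ring
    omega

end Pool.Agent.W140.GG
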