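import Pool.Agent.W140.GG.OneD

namespace Pool.Agent.W140.GG

open Finset

variable {ι : Type*} [Fintype ι] [DecidableEq ι]

lemma two_cells (x y : ι → ℝ) (hNC : NC x y) (G : SimpleGraph ι) (c t : ℕ) (X Y : Finset ι)
    (hdis : Disjoint X Y) (hXY : ∀ u ∈ X, ∀ v ∈ Y, x u < x v)
    (hX : ∀ u₁ ∈ X, ∀ u₂ ∈ X, ∀ v ∈ Y, ∀ w ∈ Y, sl x y u₁ v < sl x y u₂ v →
      sl x y u₁ w < sl x y u₂ w)
    (hY : ∀ v₁ ∈ Y, ∀ v₂ ∈ Y, ∀ u ∈ X, ∀ w ∈ X, sl x y u v₁ < sl x y u v₂ →
      sl x y w v₁ < sl x y w v₂)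
    (dX : (2 * c + t * (t + 1)) * X.card < (t + 1) * E2 G X X)
    (dY : (2 * c + t * (t + 1)) * Y.card < (t + 1) * E2 G Y Y) :
    ∃ S, Sep2 x y S ∧ 2 * c + 2 ≤ E2 G S Sᶜ := by
  classical
  have hXne : X.Nonempty := by
    by_contra h
    rw [not_nonempty_iff_eq_empty] at h
    rw [h, E2_empty_left] at dX
    simp at dX
  have hYne : Y.Nonempty := by
    by_contra h
    rw [not_nonempty_iff_eq_empty] at h
    rw [h, E2_empty_left] at dY
    simp at dY
  obtain ⟨u0, hu0⟩ := hXne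
  obtain ⟨v0, hv0⟩ := hYne
  have hg := sl_good x y hNC X Y hXY
  -- threshold in X
  have h1 : ∃ u ∈ X, c < E2 G (X.filter (fun w => - sl x y w v0 < - sl x y u v0))
      (X \ X.filter (fun w => - sl x y w v0 < - sl x y u v0)) := by
    by_contra hcon
    push Not at hcon
    have := one_dim G X (fun w => - sl x y w v0) (by
      intro a ha b hb hab
      simp only [neg_inj] at hab
      have := hg.col ⟨a, ha⟩ ⟨b, hb⟩ ⟨v0, hv0⟩ hab
      exact congrArg Subtype.val this) c t hcon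
    omega
  have h2 : ∃ v ∈ Y, c < E2 G (Y.filter (fun w => sl x y u0 w < sl x y u0 v))
      (Y \ Y.filter (fun w => sl x y u0 w < sl x y u0 v)) := by
    by_contra hcon
    push Not at hcon
    have := one_dim G Y (fun w => sl x y u0 w) (by
      intro a ha b hb hab
      have := hg.row ⟨u0, hu0⟩ ⟨a, ha⟩ ⟨b, hb⟩ hab
      exact congrArg Subtype.val this) c t hcon
    omega
  obtain ⟨u, hu, hu2⟩ := h1
  obtain ⟨v, hv, hv2⟩ := h2
  refine ⟨Blw x y u v, sep2_Blw _ _ _ _, ?_⟩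
  have e1 : Blw x y u v ∩ X = X.filter (fun w => - sl x y w v0 < - sl x y u v0) := by
    ext w
    rw [mem_inter, mem_filter, and_comm]
    apply and_congr_right
    intro hw
    rw [mem_Blw_left x y (hXY u hu v hv) (hXY w hw v hv), neg_lt_neg_iff]
    exact ⟨hX u hu w hw v hv v0 hv0, hX u hu w hw v0 hv0 v hv⟩
  have e2 : Blw x y u v ∩ Y = Y.filter (fun w => sl x y u0 w < sl x y u0 v) := by
    ext w
    rw [mem_inter, mem_filter, and_comm]
    apply and_congr_right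
    intro hw
    rw [mem_Blw_right x y (hXY u hu w hw)]
    exact ⟨hY w hw v hv u hu u0 hu0, hY w hw v hv u0 hu0 u hu⟩
  have := cut_split G (S := Blw x y u v) hdis
  rw [e1, e2] at this
  omega

/-- orientation determinant -/
def dt (x y : ι → ℝ) (i j k : ι) : ℝ := (x j - x i) * (y k - y i) - (x k - x i) * (y j - y i)

omit [Fintype ι] [DecidableEq ι] in
lemma sl_lt_left (x y : ι → ℝ) {u₁ u₂ v : ι} (h1 : x u₁ < x v) (h2 : x u₂ < x v) :
    sl x y u₁ v < sl x y u₂ v ↔ 0 < dt x y u₁ u₂ v := by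
  unfold sl dt
  rw [div_lt_div_iff₀ (by linarith) (by linarith)]
  constructor <;> intro h <;> nlinarith

omit [Fintype ι] [DecidableEq ι] in
lemma sl_lt_right (x y : ι → ℝ) {u v₁ v₂ : ι} (h1 : x u < x v₁) (h2 : x u < x v₂) :
    sl x y u v₁ < sl x y u v₂ ↔ 0 < dt x y v₁ v₂ u := by
  unfold sl dt
  rw [div_lt_div_iff₀ (by linarith) (by linarith)]
  constructor <;> intro h <;> nlinarith

/-- Points strictly to the left of the directed line. -/
noncomputable def Lft (x y : ι → ℝ) (i j : ι) : Finset ι :=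
  open Classical in univ.filter (fun k => 0 < dt x y i j k)

omit [DecidableEq ι] in
lemma mem_Lft (x y : ι → ℝ) (i j k : ι) : k ∈ Lft x y i j ↔ 0 < dt x y i j k := by
  classical
  simp [Lft]

omit [DecidableEq ι] in
lemma sep2_Lft (x y : ι → ℝ) (i j : ι) : Sep2 x y (Lft x y i j) := by
  apply sep2_of_lt x y (y j - y i) (-(x j - x i))
    ((y j - y i) * x i - (x j - x i) * y i)
  · intro k hk
    rw [mem_Lft] at hk
    unfold dt at hk
    nlinarith
  · intro k hk
    rw [mem_Lft] at hk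
    push Not at hk
    unfold dt at hk
    nlinarith

/-- Two dense cells, separated by a line, none of whose spanned lines splits the other. -/
theorem two_cells' (x y : ι → ℝ) (hNC : NC x y) (G : SimpleGraph ι) (c t : ℕ) (X Y R : Finset ι)
    (hR : Sep2 x y R) (hXR : X ⊆ R) (hYR : Disjoint Y R)
    (hX : ∀ u₁ ∈ X, ∀ u₂ ∈ X, ∀ v ∈ Y, ∀ w ∈ Y, v ∈ Lft x y u₁ u₂ → w ∈ Lft x y u₁ u₂)
    (hY : ∀ v₁ ∈ Y, ∀ v₂ ∈ Y, ∀ u ∈ X, ∀ w ∈ X, u ∈ Lft x y v₁ v₂ → w ∈ Lft x y v₁ v₂)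
    (dX : (2 * c + t * (t + 1)) * X.card < (t + 1) * E2 G X X)
    (dY : (2 * c + t * (t + 1)) * Y.card < (t + 1) * E2 G Y Y) :
    ∃ S, Sep2 x y S ∧ 2 * c + 2 ≤ E2 G S Sᶜ := by
  classical
  have hXne : X.Nonempty := by
    by_contra h
    rw [not_nonempty_iff_eq_empty] at h
    rw [h, E2_empty_left] at dX
    simp at dX
  have hYne : Y.Nonempty := by
    by_contra h
    rw [not_nonempty_iff_eq_empty] at h
    rw [h, E2_empty_left] at dY
    simp at dY
  obtain ⟨u0, hu0⟩ := hXne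
  obtain ⟨v0, hv0⟩ := hYne
  obtain ⟨a, b, d, h1, h2⟩ := hR
  have hxu : ∀ u ∈ X, a * x u + b * y u < d := fun u hu => h1 u (hXR hu)
  have hyv : ∀ v ∈ Y, d < a * x v + b * y v := fun v hv =>
    h2 v (Finset.disjoint_left.1 hYR hv)
  have hpos : 0 < a ^ 2 + b ^ 2 := by
    by_contra hcon
    push Not at hcon
    have ha : a = 0 := by nlinarith [sq_nonneg a, sq_nonneg b]
    have hb : b = 0 := by nlinarith [sq_nonneg a, sq_nonneg b]
    have e1 := hxu u0 hu0
    have e2 := hyv v0 hv0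
    rw [ha, hb] at e1 e2
    linarith
  set x' : ι → ℝ := fun i => a * x i + b * y i with hx'
  set y' : ι → ℝ := fun i => -b * x i + a * y i with hy'
  have hdt : ∀ i j k, dt x' y' i j k = (a ^ 2 + b ^ 2) * dt x y i j k := by
    intro i j k
    simp only [dt, hx', hy']
    ring
  have hdtpos : ∀ i j k, 0 < dt x' y' i j k ↔ 0 < dt x y i j k := by
    intro i j k
    rw [hdt]
    constructor
    · intro h
      exact (pos_iff_pos_of_mul_pos h).1 hpos
    · intro h
      exact mul_pos hpos h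
  have hNC' : NC x' y' := by
    intro i j k hij hjk hik h
    have h3 := hdt i j k
    unfold dt at h3
    rw [h] at h3
    rcases mul_eq_zero.1 h3.symm with h4 | h4
    · linarith
    · exact hNC i j k hij hjk hik h4
  have hXY : ∀ u ∈ X, ∀ v ∈ Y, x' u < x' v := by
    intro u hu v hv
    exact (hxu u hu).trans (hyv v hv)
  have hdis : Disjoint X Y := by
    rw [Finset.disjoint_left]
    intro z hz hz'
    exact lt_irrefl _ (hXY z hz z hz')
  obtain ⟨S, ⟨a', b', d', g1, g2⟩, hS⟩ := two_cells x' y' hNC' G c t X Y hdis hXY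
    (by
      intro u₁ hu₁ u₂ hu₂ v hv w hw h
      rw [sl_lt_left x' y' (hXY _ hu₁ _ hv) (hXY _ hu₂ _ hv), hdtpos, ← mem_Lft] at h
      rw [sl_lt_left x' y' (hXY _ hu₁ _ hw) (hXY _ hu₂ _ hw), hdtpos, ← mem_Lft]
      exact hX u₁ hu₁ u₂ hu₂ v hv w hw h)
    (by
      intro v₁ hv₁ v₂ hv₂ u hu w hw h
      rw [sl_lt_right x' y' (hXY _ hu _ hv₁) (hXY _ hu _ hv₂), hdtpos, ← mem_Lft] at h
      rw [sl_lt_right x' y' (hXY _ hw _ hv₁) (hXY _ hw _ hv₂), hdtpos, ← mem_Lft]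
      exact hY v₁ hv₁ v₂ hv₂ u hu w hw h) dX dY
  refine ⟨S, ⟨a' * a - b' * b, a' * b + b' * a, d', ?_, ?_⟩, hS⟩
  · intro i hi
    have := g1 i hi
    simp only [hx', hy'] at this
    linarith
  · intro i hi
    have := g2 i hi
    simp only [hx', hy'] at this
    linarith

end Pool.Agent.W140.GG
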