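import Pool.Agent.W140.GG.Plane

namespace Pool.Agent.W140.GG

open Finset

/-- block boundaries -/
def bd (s r i : ℕ) : ℕ := s * i + min i r

lemma bd_step (s r i : ℕ) : bd s r (i + 1) - bd s r i = s + (if i < r then 1 else 0) := by
  unfold bd
  have : s * (i + 1) = s * i + s := by ring
  rw [this]
  split_ifs with h
  · omega
  · omega

lemma bd_sum (t m r : ℕ) (hr : r ≤ m) :
    ∑ i ∈ range m, (bd (t + 1) r (i + 1) - bd (t + 1) r i) *
      (bd (t + 1) r (i + 1) - bd (t + 1) r i - 1) = m * ((t + 1) * t) + 2 * r * (t + 1) := by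
  have h1 : ∀ i ∈ range m, (bd (t + 1) r (i + 1) - bd (t + 1) r i) *
      (bd (t + 1) r (i + 1) - bd (t + 1) r i - 1) =
      (t + 1) * t + (if i < r then 2 * (t + 1) else 0) := by
    intro i _
    rw [bd_step]
    split_ifs with h
    · have : t + 1 + 1 - 1 = t + 1 := by omega
      rw [this]; ring
    · simp
  rw [sum_congr rfl h1, sum_add_distrib, sum_const, card_range, smul_eq_mul, ← sum_filter,
    sum_const]
  have : (range m).filter (fun i => i < r) = range r := by
    ext x
    simp only [mem_filter, mem_range]
    omega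
  rw [this, card_range, smul_eq_mul]
  ring

/-- The upper bound for the number of edges. -/
theorem upper (t q m r : ℕ) (hm : 1 ≤ m) (hr : r ≤ 2 * m)
    (P : Fin (2 * m * (t + 1) + r) → ℝ × ℝ) (hP : GenPos P)
    (G : SimpleGraph (Fin (2 * m * (t + 1) + r)))
    (hk : ∀ a b c : ℝ, (a ≠ 0 ∨ b ≠ 0) →
      {x ∈ G.edgeSet | Meets P a b c x}.ncard < t * (t + 1) + 2 * q + 1) :
    G.edgeSet.ncard ≤ (2 * m * (t + 1) + r) * t + 2 * m * q + r := by
  have h := plane_block P hP G (t * (t + 1) + 2 * q) hk m hm
    (bd (t + 1) (min r m)) (bd (t + 1) (r - min r m)) (by simp [bd]) (by simp [bd])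
    (by unfold bd
        have e : (t + 1) * m + (t + 1) * m = 2 * m * (t + 1) := by ring
        rcases Nat.le_total r m with h | h
        · rw [Nat.min_eq_left h]
          simp only [Nat.sub_self, Nat.min_zero, add_zero]
          rw [Nat.min_eq_right h]
          omega
        · rw [Nat.min_eq_right h, Nat.min_self, Nat.min_eq_right (by omega : r - m ≤ m)]
          omega)
    (by intro i _
        have := bd_step (t + 1) (min r m) i
        split_ifs at this <;> omega)
    (by intro i _
        have := bd_step (t + 1) (r - min r m) i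
        split_ifs at this <;> omega)
  rw [bd_sum t m (min r m) (Nat.min_le_right _ _),
    bd_sum t m (r - min r m) (by rcases Nat.le_total r m with h | h <;> omega)] at h
  have e : 2 * min r m * (t + 1) + 2 * (r - min r m) * (t + 1) = 2 * (r * (t + 1)) := by
    have : min r m + (r - min r m) = r := Nat.add_sub_cancel' (Nat.min_le_left _ _)
    calc 2 * min r m * (t + 1) + 2 * (r - min r m) * (t + 1)
        = 2 * ((min r m + (r - min r m)) * (t + 1)) := by ring
      _ = 2 * (r * (t + 1)) := by rw [this]
  nlinarith

end Pool.Agent.W140.GG
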